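import Pool.Agent.H707.SM.Maj
import Pool.Agent.TH873.EW.Fam

/-! The kernels: Hermite interpolants of the tents `(x - |u|)₊`, `x = m + 1/2`. -/

open Set Filter Topology MeasureTheory

namespace Pool.Agent.H707.SM

open Pool.Agent.TH873.EW

/-- the transform of `sin² (π u) / π² · Rm x m u` -/
noncomputable def hk (x : ℝ) (m : ℕ) (t : ℝ) : ℝ :=
  x / Real.pi ^ 2 * g0 t + ∑ k ∈ Finset.range m,
    ((4 * (k + 1) ^ 2 * (x - (k + 1)) / Real.pi ^ 2) * g2 (k + 1) t +
      ((4 * (k + 1) - 2 * x) / Real.pi ^ 2) * g1 (k + 1) t)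

lemma hk_zero (x : ℝ) : hk x 0 = fun t => x / Real.pi ^ 2 * g0 t := by
  funext t
  simp [hk]

lemma hk_succ (x : ℝ) (m : ℕ) : hk x (m + 1) = fun t => hk x m t +
    ((4 * ((m : ℝ) + 1) ^ 2 * (x - (m + 1)) / Real.pi ^ 2) * g2 (m + 1) t +
      ((4 * ((m : ℝ) + 1) - 2 * x) / Real.pi ^ 2) * g1 (m + 1) t) := by
  funext t
  unfold hk
  rw [Finset.sum_range_succ]
  ring

lemma cd_hk (x : ℝ) (m : ℕ) : ContDiff ℝ 1 (hk x m) := by
  induction m with
  | zero =>
    rw [hk_zero]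
    unfold g0
    fun_prop
  | succ m ih =>
    rw [hk_succ]
    apply ih.add
    unfold g1 g2
    fun_prop

lemma hi_succ (k : ℕ) : HI ((k : ℝ) + 1) := ⟨2 * (k + 1), by omega, by push_cast; ring⟩

lemma hk_one (x : ℝ) (m : ℕ) : hk x m 1 = 0 := by
  unfold hk
  have : ∀ k ∈ Finset.range m, ((4 * ((k : ℝ) + 1) ^ 2 * (x - (k + 1)) / Real.pi ^ 2) * g2 (k + 1) 1 +
      ((4 * ((k : ℝ) + 1) - 2 * x) / Real.pi ^ 2) * g1 (k + 1) 1) = 0 := by
    intro k _
    rw [g2_one (hi_succ k), g1_one (hi_succ k)]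
    ring
  rw [Finset.sum_eq_zero this]
  unfold g0
  ring

lemma SS_nat (k : ℕ) (u : ℝ) : SS ((k : ℝ) + 1) u = Real.sin (Real.pi * u) ^ 2 := by
  unfold SS
  have : Real.pi * ((k : ℝ) + 1 - u) = ((k + 1 : ℕ) : ℝ) * Real.pi - Real.pi * u := by
    push_cast; ring
  rw [this, Real.sin_sub, Real.sin_nat_mul_pi, zero_mul, zero_sub, neg_sq, mul_pow]
  have h1 : Real.cos (((k + 1 : ℕ) : ℝ) * Real.pi) ^ 2 = 1 := by
    have := Real.sin_sq_add_cos_sq (((k + 1 : ℕ) : ℝ) * Real.pi)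
    rw [Real.sin_nat_mul_pi] at this
    linarith
  rw [h1, one_mul]

lemma ct_hk (x : ℝ) (m : ℕ) {u : ℝ} (h0 : u ≠ 0) (hu : ∀ k : ℕ, ((k : ℝ) + 1) ^ 2 - u ^ 2 ≠ 0) :
    ct (hk x m) u = Real.sin (Real.pi * u) ^ 2 / Real.pi ^ 2 * Rm x m u := by
  have hpi := Real.pi_pos
  induction m with
  | zero =>
    rw [hk_zero, ct_smul, ct_g0 h0]
    unfold Rm
    rw [Finset.sum_range_zero, add_zero]
    field_simp
  | succ m ih =>
    have hc : Continuous (hk x m) := (cd_hk x m).continuous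
    have c1 := cont_g1 ((m : ℝ) + 1)
    have c2 := cont_g2 ((m : ℝ) + 1)
    rw [hk_succ, ct_add (f := hk x m) (g := fun t =>
      (4 * ((m : ℝ) + 1) ^ 2 * (x - (m + 1)) / Real.pi ^ 2) * g2 (m + 1) t +
      ((4 * ((m : ℝ) + 1) - 2 * x) / Real.pi ^ 2) * g1 (m + 1) t) hc (by fun_prop),
      ct_add (f := fun t => (4 * ((m : ℝ) + 1) ^ 2 * (x - (m + 1)) / Real.pi ^ 2) * g2 (m + 1) t)
        (g := fun t => ((4 * ((m : ℝ) + 1) - 2 * x) / Real.pi ^ 2) * g1 (m + 1) t)
        (by fun_prop) (by fun_prop), ct_smul, ct_smul, ih, ct_g2 (hi_succ m) (hu m),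
      ct_g1 (hi_succ m) (hu m), SS_nat]
    have e : Rm x (m + 1) u = Rm x m u +
        ((x - (m + 1)) * (1 / (u - (m + 1)) ^ 2 + 1 / (u + (m + 1)) ^ 2) -
          (1 / (u - (m + 1)) - 1 / (u + (m + 1)))) := by
      unfold Rm
      rw [Finset.sum_range_succ]
      ring
    rw [e]
    have hD := hu m
    have ha : u - ((m : ℝ) + 1) ≠ 0 := by
      intro h
      apply hD
      have : u = (m : ℝ) + 1 := by linarith
      rw [this]; ring
    have hb : u + ((m : ℝ) + 1) ≠ 0 := by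
      intro h
      apply hD
      have : u = -((m : ℝ) + 1) := by linarith
      rw [this]; ring
    obtain ⟨a, ha'⟩ : ∃ a, a = u - ((m : ℝ) + 1) := ⟨_, rfl⟩
    obtain ⟨b, hb'⟩ : ∃ b, b = u + ((m : ℝ) + 1) := ⟨_, rfl⟩
    obtain ⟨s, hs⟩ : ∃ s, s = Real.sin (Real.pi * u) := ⟨_, rfl⟩
    have e1 : ((m : ℝ) + 1) ^ 2 - u ^ 2 = -(a * b) := by rw [ha', hb']; ring
    have e2 : (m : ℝ) + 1 = (b - a) / 2 := by rw [ha', hb']; ring
    rw [← hs, e1, ← ha', ← hb', e2]
    rw [← ha'] at ha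
    rw [← hb'] at hb
    field_simp
    ring

/-- the functional of the kernel -/
lemma mom_hk (x : ℝ) (m : ℕ) : mom (hk x m) = 4 / 3 * x + ∑ k ∈ Finset.range m,
    (2 * (x - (k + 1)) + (1 / Real.pi ^ 2) * (1 / ((k : ℝ) + 1) - 2 * x / ((k : ℝ) + 1) ^ 2)) := by
  have hpi := Real.pi_pos
  induction m with
  | zero =>
    rw [hk_zero, mom_smul, mom_g0, Finset.sum_range_zero, add_zero]
    field_simp
  | succ m ih =>
    have hc : Continuous (hk x m) := (cd_hk x m).continuous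
    have c1 := cont_g1 ((m : ℝ) + 1)
    have c2 := cont_g2 ((m : ℝ) + 1)
    have hcos : Real.cos (2 * Real.pi * ((m : ℝ) + 1)) = 1 := by
      rw [show 2 * Real.pi * ((m : ℝ) + 1) = ((m + 1 : ℕ) : ℝ) * (2 * Real.pi) by push_cast; ring]
      exact Real.cos_nat_mul_two_pi _
    rw [hk_succ, mom_add (f := hk x m) (g := fun t =>
      (4 * ((m : ℝ) + 1) ^ 2 * (x - (m + 1)) / Real.pi ^ 2) * g2 (m + 1) t +
      ((4 * ((m : ℝ) + 1) - 2 * x) / Real.pi ^ 2) * g1 (m + 1) t) hc (by fun_prop),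
      mom_add (f := fun t => (4 * ((m : ℝ) + 1) ^ 2 * (x - (m + 1)) / Real.pi ^ 2) * g2 (m + 1) t)
        (g := fun t => ((4 * ((m : ℝ) + 1) - 2 * x) / Real.pi ^ 2) * g1 (m + 1) t)
        (by fun_prop) (by fun_prop), mom_smul, mom_smul, ih, mom_g2 (hi_succ m),
      mom_g1 (hi_succ m), hcos, Finset.sum_range_succ]
    have hm : (0 : ℝ) < (m : ℝ) + 1 := by positivity
    obtain ⟨y, hy⟩ : ∃ y, y = (m : ℝ) + 1 := ⟨_, rfl⟩
    rw [← hy] at hm ⊢
    field_simp
    ring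

/-- **the majorant** -/
theorem tent_le (m : ℕ) (u : ℝ) : max 0 ((m : ℝ) + 1 / 2 - |u|) ≤ ct (hk (m + 1 / 2) m) u := by
  set x : ℝ := (m : ℝ) + 1 / 2 with hx
  have hcont : Continuous (ct (hk x m)) := ct_cont (cd_hk x m).continuous
  have heven : ∀ y, ct (hk x m) (-y) = ct (hk x m) y := by
    intro y
    unfold ct
    congr 1
    apply intervalIntegral.integral_congr
    intro t _
    simp only
    rw [show 2 * Real.pi * -y * t = -(2 * Real.pi * y * t) by ring, Real.cos_neg]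
  have hpi := Real.pi_pos
  -- positive, non-integral, different from `x`
  have key : ∀ y : ℝ, 0 < y → (∀ n : ℤ, y ≠ n) → y ≠ x → max 0 (x - y) ≤ ct (hk x m) y := by
    intro y hy hn hyx
    have hsin : Real.sin (Real.pi * y) ≠ 0 := by
      intro h
      rw [Real.sin_eq_zero_iff] at h
      obtain ⟨n, hn'⟩ := h
      apply hn n
      have : (n : ℝ) * Real.pi = y * Real.pi := by rw [hn']; ring
      exact (mul_right_cancel₀ hpi.ne' this).symm
    have hs2 : 0 < Real.sin (Real.pi * y) ^ 2 := by positivity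
    have hD : ∀ k : ℕ, ((k : ℝ) + 1) ^ 2 - y ^ 2 ≠ 0 := by
      intro k h
      have h1 : y ^ 2 = ((k : ℝ) + 1) ^ 2 := by linarith
      rcases sq_eq_sq_iff_eq_or_eq_neg.mp h1 with h2 | h2
      · apply hn (k + 1)
        push_cast
        exact h2
      · have : (0 : ℝ) ≤ k := Nat.cast_nonneg k
        linarith
    rw [ct_hk x m hy.ne' hD]
    rcases lt_or_gt_of_ne hyx with h | h
    · rw [max_eq_right (by linarith)]
      have h1 := inside (m := m) hy h (fun k hk => hn k (by push_cast; exact hk))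
      have h2 := sin_bound (m := m) hy h hsin
      rw [← hx] at h1 h2
      have h3 : (x - y) * (Real.pi ^ 2 / Real.sin (Real.pi * y) ^ 2) ≤ Rm x m y :=
        (mul_le_mul_of_nonneg_left h2 (by linarith)).trans h1
      have h4 := mul_le_mul_of_nonneg_left h3
        (show 0 ≤ Real.sin (Real.pi * y) ^ 2 / Real.pi ^ 2 by positivity)
      refine le_trans (le_of_eq ?_) h4
      obtain ⟨s, hs⟩ : ∃ s, s = Real.sin (Real.pi * y) := ⟨_, rfl⟩
      rw [← hs] at hsin ⊢
      field_simp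
    · rw [max_eq_left (by linarith)]
      exact mul_nonneg (by positivity) (outside h)
  have hcount : (Set.range (fun n : ℤ => (n : ℝ)) ∪ {x, -x}).Countable :=
    (Set.countable_range _).union (Set.toFinite _).countable
  have hdense : Dense (Set.range (fun n : ℤ => (n : ℝ)) ∪ {x, -x})ᶜ := hcount.dense_compl ℝ
  have hclosed : IsClosed {y : ℝ | max 0 (x - |y|) ≤ ct (hk x m) y} :=
    isClosed_le (by fun_prop) hcont
  have hsub : (Set.range (fun n : ℤ => (n : ℝ)) ∪ {x, -x})ᶜ ⊆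
      {y : ℝ | max 0 (x - |y|) ≤ ct (hk x m) y} := by
    intro y hy
    simp only [Set.mem_compl_iff, Set.mem_union, Set.mem_range, Set.mem_insert_iff,
      Set.mem_singleton_iff, not_or, not_exists] at hy
    obtain ⟨h1, h2, h3⟩ := hy
    rw [Set.mem_ofPred_eq]
    rcases lt_trichotomy y 0 with h | h | h
    · rw [abs_of_neg h, ← heven y]
      refine key (-y) (by linarith) (fun n hn => h1 (-n) ?_) (fun h4 => h3 ?_)
      · push_cast; linarith
      · linarith
    · exact absurd (by rw [h]; simp) (h1 0)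
    · rw [abs_of_pos h]
      exact key y h (fun n hn => h1 n hn.symm) h2
  have := hclosed.closure_subset_iff.2 hsub
  exact this (hdense u)

end Pool.Agent.H707.SM
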