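import Pool.Agent.Y747.CertM

/-! The kernel of the starting files for the tent `(1 - |u|)₊`. -/

namespace Pool.Agent.H707.SM

open Pool.Agent.TH873.EW
open Pool.Agent.Y747

lemma kern_one : ∃ g : ℝ → ℝ, ContDiff ℝ 1 g ∧ g 1 = 0 ∧ (∀ u, max 0 (1 - |u|) ≤ ct g u) ∧
    mom g ≤ 1.409 := by
  refine ⟨gk 1 (-961 / 1000) (2311 / 10000), cd_gk _ _ _, gk_one _ _ _, fun u => ?_, ?_⟩
  · have hpos := ct_gk_nonneg np_M
    have key : ∀ y : ℝ, 0 ≤ y → max 0 (1 - y) ≤ ct (gk 1 (-961 / 1000) (2311 / 10000)) y := by
      intro y hy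
      rcases le_total y 1 with h | h
      · have := sg_M y hy h
        rw [max_eq_right (by linarith)]
        linarith
      · rw [max_eq_left (by linarith)]
        exact hpos y
    rcases le_total 0 u with h | h
    · rw [abs_of_nonneg h]
      exact key u h
    · rw [abs_of_nonpos h]
      have h2 := key (-u) (by linarith)
      have : ct (gk 1 (-961 / 1000) (2311 / 10000)) (-u) =
          ct (gk 1 (-961 / 1000) (2311 / 10000)) u := by
        unfold ct
        congr 1
        apply intervalIntegral.integral_congr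
        intro t _
        simp only
        rw [show 2 * Real.pi * -u * t = -(2 * Real.pi * u * t) by ring, Real.cos_neg]
      rwa [this] at h2
  · rw [mom_gk]
    have h1 := Real.pi_gt_d6
    have h2 := Real.pi_lt_d6
    have h3 : (0.02533 : ℝ) < 1 / (4 * Real.pi ^ 2) := by
      rw [lt_div_iff₀ (by positivity)]
      nlinarith
    have e : Vf 1 (-961 / 1000) (2311 / 10000) =
        (4 / 3 + 2701 / 20000 : ℝ) - (23481 / 10000) * (1 / (4 * Real.pi ^ 2)) := by
      unfold Vf
      ring
    rw [e]
    linarith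

end Pool.Agent.H707.SM
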