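import Pool.Agent.H707.SM.Par

/-! Numerical bounds. -/

open Set Filter Topology

namespace Pool.Agent.H707.SM

/-- `∑_{k ≤ m} 1/k` -/
noncomputable def H1 (m : ℕ) : ℝ := ∑ k ∈ Finset.range m, 1 / ((k : ℝ) + 1)
/-- `∑_{k ≤ m} 1/k²` -/
noncomputable def H2 (m : ℕ) : ℝ := ∑ k ∈ Finset.range m, 1 / ((k : ℝ) + 1) ^ 2

lemma H1_succ (m : ℕ) : H1 (m + 1) = H1 m + 1 / ((m : ℝ) + 1) := Finset.sum_range_succ _ _
lemma H2_succ (m : ℕ) : H2 (m + 1) = H2 m + 1 / ((m : ℝ) + 1) ^ 2 := Finset.sum_range_succ _ _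
lemma H1_zero : H1 0 = 0 := Finset.sum_range_zero _
lemma H2_zero : H2 0 = 0 := Finset.sum_range_zero _

/-- the numbers `J m` -/
noncomputable def Jm (m : ℕ) : ℝ :=
  ((m : ℝ) + 1 / 2) / 3 - (2 * m + 1) / Real.pi ^ 2 * H2 m + 1 / Real.pi ^ 2 * H1 m

lemma H2_anti (m N : ℕ) (hN : m ≤ N) :
    H2 N + 1 / ((N : ℝ) + 1 / 2) ≤ H2 m + 1 / ((m : ℝ) + 1 / 2) := by
  induction N, hN using Nat.le_induction with
  | base => exact le_rfl
  | succ N hN ih =>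
    refine le_trans ?_ ih
    have a := step_up (z := (N : ℝ) + 1) (by
      have : (0 : ℝ) ≤ N := Nat.cast_nonneg N
      linarith)
    rw [H2_succ]
    push_cast
    have e1 : (N : ℝ) + 1 - 1 / 2 = N + 1 / 2 := by ring
    rw [e1] at a
    linarith

lemma zeta2 (m : ℕ) : Real.pi ^ 2 / 6 - 1 / ((m : ℝ) + 1 / 2) ≤ H2 m := by
  have h := hasSum_zeta_two.tendsto_sum_nat
  have h2 := h.comp (tendsto_add_atTop_nat 1)
  have h3 : Real.pi ^ 2 / 6 ≤ H2 m + 1 / ((m : ℝ) + 1 / 2) := by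
    refine le_of_tendsto h2 ?_
    filter_upwards [eventually_ge_atTop m] with N hN
    have a := H2_anti m N hN
    have e : ∑ i ∈ Finset.range (N + 1), 1 / (i : ℝ) ^ 2 = H2 N := by
      rw [Finset.sum_range_succ']
      unfold H2
      push_cast
      simp
    simp only [Function.comp]
    rw [e]
    have : 0 < 1 / ((N : ℝ) + 1 / 2) := by positivity
    linarith
  linarith

lemma Jm_le (m : ℕ) : Jm m ≤ (2 + H1 m) / Real.pi ^ 2 := by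
  have hpi := Real.pi_pos
  have h := zeta2 m
  have h1 : (2 * (m : ℝ) + 1) / Real.pi ^ 2 * (Real.pi ^ 2 / 6 - 1 / ((m : ℝ) + 1 / 2)) ≤
      (2 * m + 1) / Real.pi ^ 2 * H2 m := mul_le_mul_of_nonneg_left h (by positivity)
  have h2 : (2 * (m : ℝ) + 1) / Real.pi ^ 2 * (Real.pi ^ 2 / 6 - 1 / ((m : ℝ) + 1 / 2)) =
      ((m : ℝ) + 1 / 2) / 3 - 2 / Real.pi ^ 2 := by
    field_simp
    ring
  have h3 : (2 + H1 m) / Real.pi ^ 2 = 2 / Real.pi ^ 2 + 1 / Real.pi ^ 2 * H1 m := by ring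
  unfold Jm
  rw [h3]
  linarith

lemma tail_num (K : ℕ) (hK : 9 ≤ K) :
    ∑ j ∈ Finset.Icc 10 K, (2 + H1 j) / ((j : ℝ) * (j + 1)) ≤
      ((2 + H1 10) / 10 + 1 / (10 + 1 / 2)) - ((2 + H1 (K + 1)) / (K + 1) + 1 / ((K : ℝ) + 1 + 1 / 2)) := by
  induction K, hK using Nat.le_induction with
  | base => norm_num
  | succ K hK ih =>
    rw [Finset.sum_Icc_succ_top (by omega)]
    have hK0 : (9 : ℝ) ≤ K := by exact_mod_cast hK
    rw [H1_succ (K + 1)]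
    push_cast
    obtain ⟨z, hz⟩ : ∃ z, z = (K : ℝ) + 1 := ⟨_, rfl⟩
    obtain ⟨h, hh⟩ : ∃ h, h = H1 (K + 1) := ⟨_, rfl⟩
    rw [← hz, ← hh] at ih ⊢
    have hz0 : 1 < z := by rw [hz]; linarith
    have key : (2 + h) / (z * (z + 1)) ≤ ((2 + h) / z + 1 / (z + 1 / 2)) -
        ((2 + (h + 1 / (z + 1))) / (z + 1) + 1 / (z + 1 + 1 / 2)) := by
      have e : ((2 + h) / z + 1 / (z + 1 / 2)) -
        ((2 + (h + 1 / (z + 1))) / (z + 1) + 1 / (z + 1 + 1 / 2)) - (2 + h) / (z * (z + 1)) =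
        1 / (z + 1 / 2) - 1 / (z + 1 + 1 / 2) - 1 / (z + 1) ^ 2 := by
        field_simp
        ring
      have a := step_up (z := z + 1) (by linarith)
      have e1 : z + 1 - 1 / 2 = z + 1 / 2 := by ring
      rw [e1] at a
      linarith
    linarith

lemma pi_sq_le : Real.pi ^ 2 < 9.8697 ∧ 9.8696 < Real.pi ^ 2 := by
  have h1 := Real.pi_gt_d6
  have h2 := Real.pi_lt_d6
  constructor <;> nlinarith

lemma inv_pi_sq : (0.101320 : ℝ) < 1 / Real.pi ^ 2 ∧ 1 / Real.pi ^ 2 < (0.101322 : ℝ) := by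
  obtain ⟨h1, h2⟩ := pi_sq_le
  have hp : 0 < Real.pi ^ 2 := by positivity
  constructor
  · rw [lt_div_iff₀ hp]; nlinarith
  · rw [div_lt_iff₀ hp]; nlinarith

lemma J_one : Jm 1 ≤ 0.29737 := by
  obtain ⟨h1, h2⟩ := inv_pi_sq
  have e : Jm 1 = 1 / 2 - 2 * (1 / Real.pi ^ 2) := by
    have a1 : H1 1 = 1 := by norm_num [H1]
    have b1 : H2 1 = 1 := by norm_num [H2]
    unfold Jm
    rw [a1, b1]
    push_cast
    ring
  rw [e]
  linarith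

lemma head_num : ∑ j ∈ Finset.Icc 2 9, Jm j / ((j : ℝ) * (j + 1)) ≤ 0.15716 := by
  obtain ⟨h1, h2⟩ := inv_pi_sq
  have e : Finset.Icc 2 9 = {2, 3, 4, 5, 6, 7, 8, 9} := by decide
  obtain ⟨w, hw⟩ : ∃ w, w = 1 / Real.pi ^ 2 := ⟨_, rfl⟩
  have hJ : ∀ m : ℕ, Jm m = ((m : ℝ) + 1 / 2) / 3 - w * ((2 * m + 1) * H2 m - H1 m) := by
    intro m
    unfold Jm
    rw [hw]
    ring
  rw [← hw] at h1 h2
  have a1 : H1 1 = 1 := by
    norm_num [H1, Finset.sum_range_succ]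
  have b1 : H2 1 = 1 := by
    norm_num [H2, Finset.sum_range_succ]
  have a2 : H1 2 = 3 / 2 := by
    norm_num [H1, Finset.sum_range_succ]
  have b2 : H2 2 = 5 / 4 := by
    norm_num [H2, Finset.sum_range_succ]
  have a3 : H1 3 = 3 / 2 + 1 / 3 := by
    norm_num [H1, Finset.sum_range_succ]
  have b3 : H2 3 = 5 / 4 + 1 / 9 := by
    norm_num [H2, Finset.sum_range_succ]
  have a4 : H1 4 = 3 / 2 + 1 / 3 + 1 / 4 := by
    norm_num [H1, Finset.sum_range_succ]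
  have b4 : H2 4 = 5 / 4 + 1 / 9 + 1 / 16 := by
    norm_num [H2, Finset.sum_range_succ]
  have a5 : H1 5 = 3 / 2 + 1 / 3 + 1 / 4 + 1 / 5 := by
    norm_num [H1, Finset.sum_range_succ]
  have b5 : H2 5 = 5 / 4 + 1 / 9 + 1 / 16 + 1 / 25 := by
    norm_num [H2, Finset.sum_range_succ]
  have a6 : H1 6 = 3 / 2 + 1 / 3 + 1 / 4 + 1 / 5 + 1 / 6 := by
    norm_num [H1, Finset.sum_range_succ]
  have b6 : H2 6 = 5 / 4 + 1 / 9 + 1 / 16 + 1 / 25 + 1 / 36 := by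
    norm_num [H2, Finset.sum_range_succ]
  have a7 : H1 7 = 3 / 2 + 1 / 3 + 1 / 4 + 1 / 5 + 1 / 6 + 1 / 7 := by
    norm_num [H1, Finset.sum_range_succ]
  have b7 : H2 7 = 5 / 4 + 1 / 9 + 1 / 16 + 1 / 25 + 1 / 36 + 1 / 49 := by
    norm_num [H2, Finset.sum_range_succ]
  have a8 : H1 8 = 3 / 2 + 1 / 3 + 1 / 4 + 1 / 5 + 1 / 6 + 1 / 7 + 1 / 8 := by
    norm_num [H1, Finset.sum_range_succ]
  have b8 : H2 8 = 5 / 4 + 1 / 9 + 1 / 16 + 1 / 25 + 1 / 36 + 1 / 49 + 1 / 64 := by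
    norm_num [H2, Finset.sum_range_succ]
  have a9 : H1 9 = 3 / 2 + 1 / 3 + 1 / 4 + 1 / 5 + 1 / 6 + 1 / 7 + 1 / 8 + 1 / 9 := by
    norm_num [H1, Finset.sum_range_succ]
  have b9 : H2 9 = 5 / 4 + 1 / 9 + 1 / 16 + 1 / 25 + 1 / 36 + 1 / 49 + 1 / 64 + 1 / 81 := by
    norm_num [H2, Finset.sum_range_succ]
  rw [e]
  simp only [Finset.sum_insert, Finset.mem_insert, Finset.mem_singleton, Finset.sum_singleton, hJ,
    Nat.reduceEqDiff, or_self, not_false_eq_true]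
  rw [a2, b2, a3, b3, a4, b4, a5, b5, a6, b6, a7, b7, a8, b8, a9, b9]
  push_cast
  norm_num
  linarith

lemma H1_ten : H1 10 ≤ 2.929 := by
  unfold H1
  norm_num [Finset.sum_range_succ]

lemma split_sum (f : ℕ → ℝ) (a b c : ℕ) (h2 : b ≤ c) (h1 : a ≤ b) :
    ∑ j ∈ Finset.Icc a c, f j = ∑ j ∈ Finset.Icc a b, f j + ∑ j ∈ Finset.Icc (b + 1) c, f j := by
  rw [← Finset.sum_union]
  · apply Finset.sum_congr _ fun _ _ => rfl
    ext j
    simp only [Finset.mem_union, Finset.mem_Icc]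
    omega
  · rw [Finset.disjoint_left]
    intro j h1 h2
    rw [Finset.mem_Icc] at h1 h2
    omega

/-- the total -/
theorem total {K : ℕ} (hK : 10 ≤ K) :
    ∑ j ∈ Finset.Icc 2 K, Jm j / ((j : ℝ) * (j + 1)) ≤ 0.2168 := by
  have hpi := Real.pi_pos
  have hsplit : ∑ j ∈ Finset.Icc 2 K, Jm j / ((j : ℝ) * (j + 1)) =
      ∑ j ∈ Finset.Icc 2 9, Jm j / ((j : ℝ) * (j + 1)) +
      ∑ j ∈ Finset.Icc 10 K, Jm j / ((j : ℝ) * (j + 1)) :=
    split_sum _ 2 9 K (by omega) (by omega)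
  have h1 : ∑ j ∈ Finset.Icc 10 K, Jm j / ((j : ℝ) * (j + 1)) ≤
      1 / Real.pi ^ 2 * ∑ j ∈ Finset.Icc 10 K, (2 + H1 j) / ((j : ℝ) * (j + 1)) := by
    rw [Finset.mul_sum]
    apply Finset.sum_le_sum
    intro j hj
    rw [Finset.mem_Icc] at hj
    have hj0 : (0 : ℝ) < j := by
      have : 0 < j := by omega
      exact_mod_cast this
    have h2 := Jm_le j
    calc Jm j / ((j : ℝ) * (j + 1)) ≤ ((2 + H1 j) / Real.pi ^ 2) / ((j : ℝ) * (j + 1)) := by gcongr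
      _ = _ := by field_simp
  have h2 := tail_num K (by omega)
  have h3 : 0 ≤ (2 + H1 (K + 1)) / ((K : ℝ) + 1) + 1 / ((K : ℝ) + 1 + 1 / 2) := by
    have : 0 ≤ H1 (K + 1) := Finset.sum_nonneg fun _ _ => by positivity
    positivity
  have h4 : ∑ j ∈ Finset.Icc 10 K, (2 + H1 j) / ((j : ℝ) * (j + 1)) ≤ 0.58815 := by
    have h7 := H1_ten
    have h8 : ∑ j ∈ Finset.Icc 10 K, (2 + H1 j) / ((j : ℝ) * (j + 1)) ≤
        (2 + H1 10) / 10 + 1 / (10 + 1 / 2) := by linarith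
    have h9 : (1 : ℝ) / (10 + 1 / 2) ≤ 0.09524 := by norm_num
    have h10 : (2 + H1 10) / 10 ≤ (0.4929 : ℝ) := by
      rw [div_le_iff₀ (by norm_num)]
      linarith
    linarith
  obtain ⟨w1, w2⟩ := inv_pi_sq
  have h5 : 1 / Real.pi ^ 2 * ∑ j ∈ Finset.Icc 10 K, (2 + H1 j) / ((j : ℝ) * (j + 1)) ≤
      0.101322 * 0.58815 := by
    calc _ ≤ 1 / Real.pi ^ 2 * 0.58815 := by gcongr
      _ ≤ _ := by gcongr
  have h6 := head_num
  have h7 : (0.101322 : ℝ) * 0.58815 ≤ 0.05961 := by norm_num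
  rw [hsplit]
  linarith

end Pool.Agent.H707.SM
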