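import Pool.Agent.H707.SM.Blk
import Pool.Agent.H707.SM.Ker
import Pool.Agent.H707.SM.Num
import Pool.Agent.H707.SM.KerOne
import Pool.Agent.Y747.Gp
import Pool.Agent.H382L.GapUnif

/-! The second moment of the normalised gaps. -/

open Filter Topology Set MeasureTheory

namespace Pool.Agent.H707.SM

open SG (ord NZ)
open Pool.Agent.TH873.EW (ct mom XV)
open Pool.Agent.Y747 (Bx mem_Bx)
open LG (dlt)

/-- the value of the functional -/
lemma mom_val (m : ℕ) : mom (hk ((m : ℝ) + 1 / 2) m) - (2 * m + 1) * ((m : ℝ) + 1 / 2) +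
    m * ((m : ℝ) + 1) = Jm m := by
  rw [mom_hk]
  have e1 : ∀ (x w : ℝ) (m : ℕ), ∑ k ∈ Finset.range m,
      (2 * (x - ((k : ℝ) + 1)) + w * (1 / ((k : ℝ) + 1) - 2 * x / ((k : ℝ) + 1) ^ 2)) =
      2 * m * x - m * (m + 1) + w * H1 m - 2 * x * w * H2 m := by
    intro x w m
    induction m with
    | zero => simp [H1_zero, H2_zero]
    | succ m ih =>
      rw [Finset.sum_range_succ, ih, H1_succ, H2_succ]
      push_cast
      ring
  rw [e1]
  unfold Jm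
  ring

lemma hd_dlt (η : ℝ) (hη : 0 < η) : ∃ V1 : ℝ, ∀ V : ℝ, V1 ≤ V → ∀ n : ℕ, n ∈ Bx V → n + 1 ∈ Bx V →
      dlt n ≤ (1 + η) * (Real.log V / (2 * Real.pi) * (ord (n + 1) - ord n)) := by
  obtain ⟨V1, hV1⟩ := (Real.tendsto_log_atTop.eventually_ge_atTop (2 / η)).exists_forall_of_atTop
  refine ⟨max 10 V1, fun V hV n hn hn' => ?_⟩
  have hV10 : 10 ≤ V := (le_max_left _ _).trans hV
  have hL := hV1 V ((le_max_right _ _).trans hV)
  rw [div_le_iff₀ hη] at hL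
  rw [mem_Bx] at hn hn'
  have hpi := Real.pi_pos
  obtain ⟨a, ha⟩ : ∃ a, a = ord n := ⟨_, rfl⟩
  obtain ⟨b, hb⟩ : ∃ b, b = ord (n + 1) := ⟨_, rfl⟩
  have hab : a ≤ b := by rw [ha, hb]; exact SG.ord_mono hn.1 (by omega)
  have ha0 : 0 < a := by rw [ha]; linarith [hn.2.1]
  have hb0 : 0 < b := lt_of_lt_of_le ha0 hab
  have hbV : b ≤ 2 * V := by rw [hb]; linarith [hn'.2.2]
  unfold LG.dlt
  rw [← ha, ← hb]
  have h1 : a * (Real.log b - Real.log a) ≤ b - a := by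
    have h2 := Real.log_le_sub_one_of_pos (div_pos hb0 ha0)
    rw [Real.log_div hb0.ne' ha0.ne'] at h2
    have h3 : a * (Real.log b - Real.log a) ≤ a * (b / a - 1) := mul_le_mul_of_nonneg_left h2 ha0.le
    have h4 : a * (b / a - 1) = b - a := by field_simp
    linarith
  have h5 : Real.log b ≤ Real.log 2 + Real.log V := by
    rw [← Real.log_mul (by norm_num) (by linarith)]
    exact Real.log_le_log hb0 hbV
  have h6 : Real.log 2 ≤ 1 := by
    have := Real.log_two_lt_d9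
    linarith
  have h7 : b * Real.log b - a * Real.log a ≤ (b - a) * ((1 + η) * Real.log V) := by
    have h8 : b * Real.log b - a * Real.log a = (b - a) * Real.log b + a * (Real.log b - Real.log a) := by
      ring
    have h9 : (b - a) * Real.log b ≤ (b - a) * ((1 + η) * Real.log V - 1) := by
      apply mul_le_mul_of_nonneg_left _ (by linarith)
      have : (1 + η) * Real.log V = Real.log V + Real.log V * η := by ring
      linarith
    have h10 : (b - a) * ((1 + η) * Real.log V - 1) = (b - a) * ((1 + η) * Real.log V) - (b - a) := by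
      ring
    linarith
  rw [div_le_iff₀ (by positivity)]
  refine h7.trans (le_of_eq ?_)
  field_simp

/-- the sum of the gaps -/
lemma sum_dlt (N : ℕ) : ∑ n ∈ Finset.Icc 1 N, dlt n =
    (ord (N + 1) * Real.log (ord (N + 1)) - ord 1 * Real.log (ord 1)) / (2 * Real.pi) := by
  induction N with
  | zero => simp
  | succ N ih =>
    rw [Finset.sum_Icc_succ_top (by omega), ih]
    unfold LG.dlt
    ring

lemma const_small (c ε : ℝ) (hε : 0 < ε) : ∀ᶠ N : ℕ in atTop, c ≤ ε * N := by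
  filter_upwards [tendsto_natCast_atTop_atTop.eventually_ge_atTop (c / ε)] with N hN
  rw [div_le_iff₀ hε] at hN
  linarith

lemma sum_dlt_le (ε : ℝ) (hε : 0 < ε) :
    ∀ᶠ N : ℕ in atTop, ∑ n ∈ Finset.Icc 1 N, dlt n ≤ (1 + ε) * N := by
  filter_upwards [W249.TCF.T_le (min 1 (ε / 2)) (by positivity) (min_le_left _ _),
    const_small (-(ord 1 * Real.log (ord 1) / (2 * Real.pi))) (ε / 2) (by positivity)] with N h1 h2
  rw [sum_dlt, sub_div]
  have h3 : (1 + min 1 (ε / 2)) * (N : ℝ) ≤ (1 + ε / 2) * N := by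
    apply mul_le_mul_of_nonneg_right _ (Nat.cast_nonneg N)
    linarith [min_le_right (1 : ℝ) (ε / 2)]
  linarith

lemma sum_dlt_ge (hRH : RiemannHypothesis) (ε : ℝ) (hε : 0 < ε) :
    ∀ᶠ N : ℕ in atTop, (1 - ε) * N ≤ ∑ n ∈ Finset.Icc 1 N, dlt n := by
  obtain ⟨T0, hT0, h⟩ := Pool.Agent.Y747.NZ_upper hRH (ε / 2) (by positivity)
  have hlim : Tendsto (fun N : ℕ => ord (N + 1)) atTop atTop :=
    SG.ord_tendsto.comp (tendsto_add_atTop_nat 1)
  filter_upwards [hlim.eventually_ge_atTop T0,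
    const_small (ord 1 * Real.log (ord 1) / (2 * Real.pi)) (ε / 2) (by positivity)] with N h1 h2
  have h3 := h _ h1
  have h4 : N + 1 ≤ NZ (ord (N + 1)) := (SG.ord_le_iff (by omega) _).1 le_rfl
  have h5 : ((N : ℝ) + 1) ≤ NZ (ord (N + 1)) := by exact_mod_cast h4
  rw [sum_dlt, sub_div]
  obtain ⟨Y, hY⟩ : ∃ Y, Y = ord (N + 1) * Real.log (ord (N + 1)) / (2 * Real.pi) := ⟨_, rfl⟩
  rw [← hY] at h3 ⊢
  have hN0 : (0 : ℝ) ≤ N := Nat.cast_nonneg N
  have h6 : (N : ℝ) ≤ (1 + ε / 2) * Y := by linarith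
  have h7 : (1 - ε / 2) * (N : ℝ) ≤ Y := by
    by_contra hc
    rw [not_le] at hc
    have h8 : (1 + ε / 2) * Y < (1 + ε / 2) * ((1 - ε / 2) * N) :=
      mul_lt_mul_of_pos_left hc (by linarith)
    have h9 : (1 + ε / 2) * ((1 - ε / 2) * (N : ℝ)) = N - ε ^ 2 / 4 * N := by ring
    have h10 : 0 ≤ ε ^ 2 / 4 * (N : ℝ) := by positivity
    linarith
  have h8 : (1 - ε) * (N : ℝ) = (1 - ε / 2) * N - ε / 2 * N := by ring
  linarith

lemma dlt_ge_dl {n : ℕ} (hn : 1 ≤ n) : Pool.Agent.Y747.dl n ≤ dlt n := by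
  have hpi := Real.pi_gt_three
  obtain ⟨a, ha⟩ : ∃ a, a = ord n := ⟨_, rfl⟩
  obtain ⟨b, hb⟩ : ∃ b, b = ord (n + 1) := ⟨_, rfl⟩
  have hab : a ≤ b := by rw [ha, hb]; exact SG.ord_mono hn (by omega)
  have ha0 : 0 < a := by rw [ha]; exact SG.ord_pos hn
  have hb0 : 0 < b := lt_of_lt_of_le ha0 hab
  unfold LG.dlt Pool.Agent.Y747.dl
  rw [← ha, ← hb]
  have h1 : Real.log (a / (2 * Real.pi)) ≤ Real.log a := by
    apply Real.log_le_log (by positivity)
    apply div_le_self ha0.le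
    linarith
  have h2 : b * Real.log a ≤ b * Real.log b :=
    mul_le_mul_of_nonneg_left (Real.log_le_log ha0 hab) hb0.le
  rw [div_mul_eq_mul_div]
  apply div_le_div_of_nonneg_right _ (by positivity)
  have h3 : (b - a) * Real.log (a / (2 * Real.pi)) ≤ (b - a) * Real.log a :=
    mul_le_mul_of_nonneg_left h1 (by linarith)
  have h4 : (b - a) * Real.log a = b * Real.log a - a * Real.log a := by ring
  linarith

/-- the gaps are nonnegative from some index on -/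
lemma dlt_nonneg : ∃ n0 : ℕ, ∀ n : ℕ, n0 ≤ n → 0 ≤ dlt n := by
  obtain ⟨n0, h⟩ := (SG.ord_tendsto.eventually_ge_atTop (2 * Real.pi)).exists_forall_of_atTop
  have hpi := Real.pi_gt_three
  refine ⟨max 1 n0, fun n hn => ?_⟩
  have h1 := h n ((le_max_right _ _).trans hn)
  have h2 : 1 ≤ n := (le_max_left _ _).trans hn
  refine le_trans ?_ (dlt_ge_dl h2)
  unfold Pool.Agent.Y747.dl
  apply mul_nonneg
  · apply div_nonneg _ (by positivity)
    exact sub_nonneg.2 (SG.ord_mono h2 (by omega))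
  · apply Real.log_nonneg
    rw [le_div_iff₀ (by positivity)]
    linarith

/-- mean of the truncated positive parts at a half-integer -/
lemma mean_half (hRH : RiemannHypothesis) {m : ℕ} (hm : 1 ≤ m) {B : ℝ} (hB : 0 ≤ B) {ε : ℝ}
    (hε : 0 < ε) : ∀ᶠ N : ℕ in atTop, ∑ n ∈ Finset.Icc 1 N, mc B ((m : ℝ) + 1 / 2) (dlt n) ≤
      (Jm m / ((m : ℝ) * (m + 1)) + ε) * N := by
  have h := mean hRH (cd_hk ((m : ℝ) + 1 / 2) m) (hk_one _ _) (x := (m : ℝ) + 1 / 2) (by positivity)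
    (tent_le m) hm hd_dlt hB hε
  rw [mom_val] at h
  exact h

lemma mean_zero (hRH : RiemannHypothesis) {B : ℝ} (hB : 0 ≤ B) {ε : ℝ}
    (hε : 0 < ε) : ∀ᶠ N : ℕ in atTop, ∑ n ∈ Finset.Icc 1 N, mc B (1 / 2) (dlt n) ≤
      (7 / 12 + ε) * N := by
  have h0 := tent_le 0
  simp only [Nat.cast_zero, zero_add] at h0
  have h := mean hRH (cd_hk (1 / 2) 0) (hk_one _ _) (x := 1 / 2) (by norm_num)
    h0 (le_refl 1) hd_dlt hB hε
  rw [mom_hk, Finset.sum_range_zero] at h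
  have e : (4 / 3 * (1 / 2 : ℝ) + 0 - (2 * ((1 : ℕ) : ℝ) + 1) * (1 / 2) + ((1 : ℕ) : ℝ) *
      (((1 : ℕ) : ℝ) + 1)) / (((1 : ℕ) : ℝ) * (((1 : ℕ) : ℝ) + 1)) = 7 / 12 := by norm_num
  rw [e] at h
  exact h

lemma mean_one (hRH : RiemannHypothesis) {B : ℝ} (hB : 0 ≤ B) {ε : ℝ}
    (hε : 0 < ε) : ∀ᶠ N : ℕ in atTop, ∑ n ∈ Finset.Icc 1 N, mc B 1 (dlt n) ≤
      (0.2045 + ε) * N := by
  obtain ⟨g, hg1, hg2, hg3, hg4⟩ := kern_one
  have h := mean hRH hg1 hg2 (x := 1) one_pos hg3 (le_refl 1) hd_dlt hB hε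
  filter_upwards [h] with N hN
  refine hN.trans ?_
  apply mul_le_mul_of_nonneg_right _ (Nat.cast_nonneg N)
  have e : (mom g - (2 * ((1 : ℕ) : ℝ) + 1) * 1 + ((1 : ℕ) : ℝ) * (((1 : ℕ) : ℝ) + 1)) /
      (((1 : ℕ) : ℝ) * (((1 : ℕ) : ℝ) + 1)) ≤ 0.2045 := by
    rw [div_le_iff₀ (by norm_num)]
    push_cast
    linarith
  linarith

lemma rhs_of (hRH : RiemannHypothesis) : SP.RHs := by
  intro s h1 h2 h0
  apply hRH s h0
  · rintro ⟨k, hk⟩
    have := congrArg Complex.re hk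
    simp at this
    have hk0 : (0 : ℝ) ≤ k := Nat.cast_nonneg k
    linarith
  · intro h; rw [h] at h2; simp at h2

/-- the tail -/
lemma tail_dlt (hRH : RiemannHypothesis) {ε : ℝ} (hε : 0 < ε) :
    ∃ K0 : ℕ, ∀ K : ℕ, K0 ≤ K → ∀ N : ℕ, 1 ≤ N → ∑ n ∈ Finset.Icc 1 N, tl K (dlt n) ≤ ε * N := by
  obtain ⟨c, x0, hc, -, h⟩ := LG.gap_uniform (rhs_of hRH)
  exact tail hc h hε

/-- **means of the positive parts** -/
theorem pos_mean (hRH : RiemannHypothesis) {m : ℕ} (hm : 1 ≤ m) {ε : ℝ} (hε : 0 < ε) :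
    ∀ᶠ N : ℕ in atTop, ∑ n ∈ Finset.Icc 1 N, max 0 (dlt n - ((m : ℝ) + 1 / 2)) ≤
      (Jm m / ((m : ℝ) * (m + 1)) + ε) * N := by
  obtain ⟨K0, hK0⟩ := tail_dlt hRH (ε := ε / 2) (by positivity)
  set K := max K0 1 with hK
  have hK1 : 1 ≤ K := le_max_right _ _
  filter_upwards [mean_half hRH hm (B := (K : ℝ)) (Nat.cast_nonneg K) (ε := ε / 2) (by positivity),
    eventually_ge_atTop 1] with N h1 hN
  have h2 := hK0 K (le_max_left _ _) N hN
  have h3 : ∑ n ∈ Finset.Icc 1 N, max 0 (dlt n - ((m : ℝ) + 1 / 2)) ≤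
      ∑ n ∈ Finset.Icc 1 N, (mc K ((m : ℝ) + 1 / 2) (dlt n) + tl K (dlt n)) :=
    Finset.sum_le_sum fun n _ => pos_le hK1 (by positivity)
  rw [Finset.sum_add_distrib] at h3
  have e : (Jm m / ((m : ℝ) * (m + 1)) + ε) * N = (Jm m / ((m : ℝ) * (m + 1)) + ε / 2) * N +
      ε / 2 * N := by ring
  linarith

/-- **the second moment, upper bound** -/
theorem upper (hRH : RiemannHypothesis) :
    ∀ᶠ N : ℕ in atTop, ∑ n ∈ Finset.Icc 1 N, (dlt n) ^ 2 ≤ 1.945 * N := by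
  obtain ⟨e, he⟩ : ∃ e : ℝ, e = 1 / 20000 := ⟨_, rfl⟩
  have he0 : 0 < e := by rw [he]; norm_num
  obtain ⟨K0, hK0⟩ := tail_dlt hRH he0
  set K := max K0 10 with hK
  have hK10 : 10 ≤ K := le_max_right _ _
  have hKr : (0 : ℝ) ≤ K := Nat.cast_nonneg K
  have hKpos : (0 : ℝ) < K := by
    have : 0 < K := by omega
    exact_mod_cast this
  obtain ⟨n0, hn0⟩ := dlt_nonneg
  -- the exceptional terms
  set D : ℝ := ∑ n ∈ Finset.range n0, ((dlt n) ^ 2 + |dlt n|) with hD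
  have hall : ∀ᶠ N : ℕ in atTop, ∀ j ∈ Finset.Icc 2 K,
      ∑ n ∈ Finset.Icc 1 N, mc K ((j : ℝ) + 1 / 2) (dlt n) ≤
        (Jm j / ((j : ℝ) * (j + 1)) + e / K) * N := by
    rw [Filter.eventually_all_finset]
    intro j hj
    rw [Finset.mem_Icc] at hj
    exact mean_half hRH (by omega) hKr (by positivity)
  filter_upwards [hall, mean_zero hRH hKr he0, mean_one hRH hKr he0,
    mean_half hRH (le_refl 1) hKr he0, sum_dlt_le e he0, const_small D e he0,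
    eventually_ge_atTop 1] with N h1 h2 h3 h4 h5 h6 hN
  have h7 := hK0 K (le_max_left _ _) N hN
  have hN0 : (0 : ℝ) ≤ N := Nat.cast_nonneg N
  have hpt : ∀ n ∈ Finset.Icc 1 N, (dlt n) ^ 2 ≤ 1 / 2 * dlt n + mc K (1 / 2) (dlt n) +
      mc K 1 (dlt n) + 3 / 2 * mc K (3 / 2) (dlt n) +
      2 * ∑ j ∈ Finset.Icc 2 K, mc K ((j : ℝ) + 1 / 2) (dlt n) + tl K (dlt n) +
      (if n ∈ Finset.range n0 then (dlt n) ^ 2 + |dlt n| else 0) := by
    intro n _
    split_ifs with h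
    · have a1 : 0 ≤ mc K (1 / 2) (dlt n) := mc_nonneg hKr
      have a2 : 0 ≤ mc K 1 (dlt n) := mc_nonneg hKr
      have a3 : 0 ≤ mc K (3 / 2) (dlt n) := mc_nonneg hKr
      have a4 : 0 ≤ ∑ j ∈ Finset.Icc 2 K, mc K ((j : ℝ) + 1 / 2) (dlt n) :=
        Finset.sum_nonneg fun _ _ => mc_nonneg hKr
      have a5 := tl_nonneg K (dlt n)
      have a6 := neg_abs_le (dlt n)
      have a7 := abs_nonneg (dlt n)
      linarith
    · rw [Finset.mem_range, not_lt] at h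
      have := sq_le (K := K) (hn0 n h)
      linarith
  have hsum := Finset.sum_le_sum hpt
  simp only [Finset.sum_add_distrib, ← Finset.mul_sum] at hsum
  have hexc : ∑ n ∈ Finset.Icc 1 N, (if n ∈ Finset.range n0 then (dlt n) ^ 2 + |dlt n| else 0) ≤
      D := by
    rw [← Finset.sum_filter]
    apply Finset.sum_le_sum_of_subset_of_nonneg
    · intro n hn
      exact (Finset.mem_filter.1 hn).2
    · intro n _ _
      positivity
  have hcomm : ∑ n ∈ Finset.Icc 1 N, ∑ j ∈ Finset.Icc 2 K, mc K ((j : ℝ) + 1 / 2) (dlt n) =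
      ∑ j ∈ Finset.Icc 2 K, ∑ n ∈ Finset.Icc 1 N, mc K ((j : ℝ) + 1 / 2) (dlt n) :=
    Finset.sum_comm
  rw [hcomm] at hsum
  have h8 : ∑ j ∈ Finset.Icc 2 K, ∑ n ∈ Finset.Icc 1 N, mc K ((j : ℝ) + 1 / 2) (dlt n) ≤
      (0.2168 + e) * N := by
    refine (Finset.sum_le_sum h1).trans ?_
    rw [← Finset.sum_mul, Finset.sum_add_distrib, Finset.sum_const, nsmul_eq_mul, Nat.card_Icc]
    apply mul_le_mul_of_nonneg_right _ hN0
    have a1 := total hK10
    have a2 : ((K + 1 - 2 : ℕ) : ℝ) * (e / K) ≤ e := by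
      have a3 : ((K + 1 - 2 : ℕ) : ℝ) ≤ K := by
        have : K + 1 - 2 ≤ K := by omega
        exact_mod_cast this
      calc ((K + 1 - 2 : ℕ) : ℝ) * (e / K) ≤ K * (e / K) :=
            mul_le_mul_of_nonneg_right a3 (by positivity)
        _ = e := by field_simp
    linarith
  have h9 : Jm 1 / (((1 : ℕ) : ℝ) * (((1 : ℕ) : ℝ) + 1)) ≤ 0.148685 := by
    rw [div_le_iff₀ (by norm_num)]
    have := J_one
    push_cast
    linarith
  have h10 : ∑ n ∈ Finset.Icc 1 N, mc K (3 / 2) (dlt n) ≤ (0.148685 + e) * N := by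
    have e1 : ((1 : ℕ) : ℝ) + 1 / 2 = 3 / 2 := by norm_num
    rw [e1] at h4
    refine h4.trans ?_
    apply mul_le_mul_of_nonneg_right _ hN0
    linarith
  have e2 : ∀ c : ℝ, (c + e) * N = c * N + e * N := fun c => by ring
  have e3 : (1 + e) * (N : ℝ) = N + e * N := by ring
  rw [e2] at h2 h3 h8 h10
  rw [e3] at h5
  have e4 : e * (N : ℝ) = 1 / 20000 * N := by rw [he]
  rw [e4] at h2 h3 h5 h6 h7 h8 h10
  linarith

/-- **the second moment, lower bound** -/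
theorem lower (hRH : RiemannHypothesis) :
    ∀ᶠ N : ℕ in atTop, 1.04 * (N : ℝ) ≤ ∑ n ∈ Finset.Icc 1 N, (dlt n) ^ 2 := by
  filter_upwards [Pool.Agent.Y747.plus_ge hRH (1 / 100000) (by norm_num),
    sum_dlt_le (1 / 100000) (by norm_num), sum_dlt_ge hRH (1 / 100000) (by norm_num),
    eventually_gt_atTop 0] with N h1 h2 h3 hN
  have hNr : (0 : ℝ) < N := by exact_mod_cast hN
  have h4 : ∑ n ∈ Finset.Icc 1 N, max 0 (Pool.Agent.Y747.dl n - 1) ≤
      ∑ n ∈ Finset.Icc 1 N, max 0 (dlt n - 1) := by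
    apply Finset.sum_le_sum
    intro n hn
    rw [Finset.mem_Icc] at hn
    exact max_le_max le_rfl (by linarith [dlt_ge_dl hn.1])
  have e0 : (N : ℝ) = ∑ n ∈ Finset.Icc 1 N, (1 : ℝ) := by simp
  have e1 : ∑ n ∈ Finset.Icc 1 N, |dlt n - 1| =
      2 * ∑ n ∈ Finset.Icc 1 N, max 0 (dlt n - 1) - (∑ n ∈ Finset.Icc 1 N, dlt n - N) := by
    rw [e0, ← Finset.sum_sub_distrib, Finset.mul_sum, ← Finset.sum_sub_distrib]
    apply Finset.sum_congr rfl
    intro n _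
    rcases le_total 0 (dlt n - 1) with h | h
    · rw [abs_of_nonneg h, max_eq_right h]
      ring
    · rw [abs_of_nonpos h, max_eq_left h]
      ring
  have h5 : 0.201 * (N : ℝ) ≤ ∑ n ∈ Finset.Icc 1 N, |dlt n - 1| := by
    rw [e1]
    linarith
  have h6 : (∑ n ∈ Finset.Icc 1 N, |dlt n - 1|) ^ 2 ≤
      (N : ℝ) * ∑ n ∈ Finset.Icc 1 N, (dlt n - 1) ^ 2 := by
    have := sq_sum_le_card_mul_sum_sq (s := Finset.Icc 1 N) (f := fun n => |dlt n - 1|)
    simp only [sq_abs, Nat.card_Icc, Nat.add_sub_cancel] at this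
    exact this
  have h7 : 0.0404 * (N : ℝ) ≤ ∑ n ∈ Finset.Icc 1 N, (dlt n - 1) ^ 2 := by
    have h8 : (0.201 * (N : ℝ)) ^ 2 ≤ (∑ n ∈ Finset.Icc 1 N, |dlt n - 1|) ^ 2 :=
      pow_le_pow_left₀ (by positivity) h5 2
    have h9 : (N : ℝ) * (0.0404 * N) ≤ N * ∑ n ∈ Finset.Icc 1 N, (dlt n - 1) ^ 2 := by
      refine le_trans ?_ (h8.trans h6)
      have : (0.201 * (N : ℝ)) ^ 2 = 0.040401 * (N * N) := by ring
      rw [this]
      have : 0 ≤ (N : ℝ) * N := by positivity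
      nlinarith
    exact le_of_mul_le_mul_left h9 hNr
  have e2 : ∑ n ∈ Finset.Icc 1 N, (dlt n) ^ 2 = ∑ n ∈ Finset.Icc 1 N, (dlt n - 1) ^ 2 +
      2 * ∑ n ∈ Finset.Icc 1 N, dlt n - N := by
    rw [e0, Finset.mul_sum, ← Finset.sum_add_distrib, ← Finset.sum_sub_distrib]
    apply Finset.sum_congr rfl
    intro n _
    ring
  rw [e2]
  linarith

end Pool.Agent.H707.SM
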