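import Mathlib

/-! The trapezoidal rule for the second moment, and the tail. -/

open Set Filter Topology

namespace Pool.Agent.H707.SM

lemma arith_sum (d : ℝ) (J : ℕ) (hJ : 1 ≤ J) :
    ∑ j ∈ Finset.Icc 2 J, (d - ((j : ℝ) + 1 / 2)) =
      ((J : ℝ) - 1) * d - ((J : ℝ) * (J + 1) / 2 - 1) - ((J : ℝ) - 1) / 2 := by
  induction J, hJ using Nat.le_induction with
  | base => norm_num
  | succ J hJ ih =>
    rw [Finset.sum_Icc_succ_top (by omega), ih]
    push_cast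
    ring

/-- the trapezoidal rule with the nodes `0, 1/2, 1, 3/2, 5/2, …, K + 1/2` -/
lemma trap {K : ℕ} {d : ℝ} (h0 : 0 ≤ d) (h1 : d ≤ K) :
    d ^ 2 ≤ 1 / 2 * d + max 0 (d - 1 / 2) + max 0 (d - 1) + 3 / 2 * max 0 (d - 3 / 2) +
      2 * ∑ j ∈ Finset.Icc 2 K, max 0 (d - ((j : ℝ) + 1 / 2)) := by
  have hs : ∀ K' : ℕ, K' ≤ K → ∑ j ∈ Finset.Icc 2 K', max 0 (d - ((j : ℝ) + 1 / 2)) ≤
      ∑ j ∈ Finset.Icc 2 K, max 0 (d - ((j : ℝ) + 1 / 2)) := fun K' hK' =>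
    Finset.sum_le_sum_of_subset_of_nonneg (Finset.Icc_subset_Icc le_rfl hK')
      fun _ _ _ => le_max_left _ _
  have hs0 : 0 ≤ ∑ j ∈ Finset.Icc 2 K, max 0 (d - ((j : ℝ) + 1 / 2)) :=
    Finset.sum_nonneg fun _ _ => le_max_left _ _
  have m1 := le_max_left 0 (d - 1 / 2)
  have m1' := le_max_right 0 (d - 1 / 2)
  have m2 := le_max_left 0 (d - 1)
  have m2' := le_max_right 0 (d - 1)
  have m3 := le_max_left 0 (d - 3 / 2)
  have m3' := le_max_right 0 (d - 3 / 2)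
  rcases le_or_gt d (1 / 2) with h | h
  · nlinarith
  rcases le_or_gt d 1 with h' | h'
  · nlinarith [mul_nonneg (sub_nonneg.2 h.le) (sub_nonneg.2 h')]
  rcases le_or_gt d (3 / 2) with h'' | h''
  · nlinarith [mul_nonneg (sub_nonneg.2 h'.le) (sub_nonneg.2 h'')]
  obtain ⟨J, hJ⟩ : ∃ J : ℕ, J = ⌊d - 1 / 2⌋₊ := ⟨_, rfl⟩
  have hJ1 : (J : ℝ) ≤ d - 1 / 2 := by rw [hJ]; exact Nat.floor_le (by linarith)
  have hJ2 : d - 1 / 2 < J + 1 := by rw [hJ]; exact Nat.lt_floor_add_one _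
  have hJ3 : 1 ≤ J := by
    rw [hJ]
    exact Nat.le_floor (by push_cast; linarith)
  have hJK : J ≤ K := by
    have : (J : ℝ) ≤ K := by linarith
    exact_mod_cast this
  have h2 := hs J hJK
  have h3 : ∑ j ∈ Finset.Icc 2 J, (d - ((j : ℝ) + 1 / 2)) ≤
      ∑ j ∈ Finset.Icc 2 J, max 0 (d - ((j : ℝ) + 1 / 2)) :=
    Finset.sum_le_sum fun _ _ => le_max_right _ _
  rw [arith_sum d J hJ3] at h3
  nlinarith [mul_nonneg (show 0 ≤ d - (J + 1 / 2) by linarith) (show 0 ≤ J + 3 / 2 - d by linarith)]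

/-- `min B (d - x)₊` -/
noncomputable def mc (B x d : ℝ) : ℝ := min B (max 0 (d - x))

lemma mc_nonneg {B x d : ℝ} (hB : 0 ≤ B) : 0 ≤ mc B x d := le_min hB (le_max_left _ _)

lemma mc_le (B x d : ℝ) : mc B x d ≤ B := min_le_left _ _

lemma mc_eq {B x d : ℝ} (hx : 0 ≤ x) (hB : 0 ≤ B) (h : d ≤ B) : mc B x d = max 0 (d - x) :=
  min_eq_right (max_le hB (by linarith))

/-- the large values -/
noncomputable def tl (K : ℕ) (d : ℝ) : ℝ := if (K : ℝ) ≤ d then d ^ 2 else 0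

lemma tl_nonneg (K : ℕ) (d : ℝ) : 0 ≤ tl K d := by
  unfold tl
  split_ifs <;> positivity

/-- the pointwise bound for the square -/
lemma sq_le {K : ℕ} {d : ℝ} (h0 : 0 ≤ d) :
    d ^ 2 ≤ 1 / 2 * d + mc K (1 / 2) d + mc K 1 d + 3 / 2 * mc K (3 / 2) d +
      2 * ∑ j ∈ Finset.Icc 2 K, mc K ((j : ℝ) + 1 / 2) d + tl K d := by
  have hK0 : (0 : ℝ) ≤ K := Nat.cast_nonneg K
  rcases lt_or_ge d K with h | h
  · have h1 := trap h0 h.le
    rw [mc_eq (by norm_num) hK0 h.le, mc_eq (by norm_num) hK0 h.le, mc_eq (by norm_num) hK0 h.le]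
    have h2 : ∑ j ∈ Finset.Icc 2 K, mc K ((j : ℝ) + 1 / 2) d =
        ∑ j ∈ Finset.Icc 2 K, max 0 (d - ((j : ℝ) + 1 / 2)) :=
      Finset.sum_congr rfl fun j _ => mc_eq (by positivity) hK0 h.le
    rw [h2]
    have := tl_nonneg K d
    linarith
  · have e : tl K d = d ^ 2 := if_pos h
    rw [e]
    have h1 : 0 ≤ mc K (1 / 2) d := mc_nonneg hK0
    have h2 : 0 ≤ mc K 1 d := mc_nonneg hK0
    have h3 : 0 ≤ mc K (3 / 2) d := mc_nonneg hK0
    have h4 : 0 ≤ ∑ j ∈ Finset.Icc 2 K, mc K ((j : ℝ) + 1 / 2) d :=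
      Finset.sum_nonneg fun _ _ => mc_nonneg hK0
    linarith

/-- the pointwise bound for the positive part -/
lemma pos_le {K : ℕ} (hK : 1 ≤ K) {x d : ℝ} (hx : 0 ≤ x) :
    max 0 (d - x) ≤ mc K x d + tl K d := by
  have hK1 : (1 : ℝ) ≤ K := by exact_mod_cast hK
  have hK0 : (0 : ℝ) ≤ K := Nat.cast_nonneg K
  rcases lt_or_ge d K with h | h
  · rw [mc_eq hx hK0 h.le]
    have := tl_nonneg K d
    linarith
  · have e : tl K d = d ^ 2 := if_pos h
    rw [e]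
    have h1 : 0 ≤ mc K x d := mc_nonneg hK0
    have h2 : max 0 (d - x) ≤ d := max_le (by linarith) (by linarith)
    nlinarith

lemma inv_sq_sum (K M : ℕ) (hK : 2 ≤ K) (hM : K ≤ M) :
    ∑ k ∈ Finset.Icc K M, 1 / (k : ℝ) ^ 2 ≤ 1 / ((K : ℝ) - 1) - 1 / M := by
  induction M, hM using Nat.le_induction with
  | base =>
    have h : (2 : ℝ) ≤ K := by exact_mod_cast hK
    have h1 : (0 : ℝ) < K - 1 := by linarith
    rw [Finset.Icc_self, Finset.sum_singleton, div_sub_div _ _ (by positivity) (by positivity),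
      div_le_div_iff₀ (by positivity) (by positivity)]
    nlinarith
  | succ M hM ih =>
    rw [Finset.sum_Icc_succ_top (by omega)]
    have h : (2 : ℝ) ≤ M := by exact_mod_cast hK.trans hM
    push_cast
    have h3 : 1 / ((M : ℝ) + 1) ^ 2 ≤ 1 / M - 1 / (M + 1) := by
      rw [div_sub_div _ _ (by positivity) (by positivity),
        div_le_div_iff₀ (by positivity) (by positivity)]
      nlinarith
    linarith

/-- the tail of the second moment -/
theorem tail {δ : ℕ → ℝ} {c x0 : ℝ} (hc : 0 < c)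
    (h : ∀ N : ℕ, 1 ≤ N → ∀ x : ℝ, x0 ≤ x →
      ({n : ℕ | 1 ≤ n ∧ n ≤ N ∧ x ≤ δ n}.ncard : ℝ) ≤ N * Real.exp (-c * x * Real.log x))
    {ε : ℝ} (hε : 0 < ε) :
    ∃ K0 : ℕ, ∀ K : ℕ, K0 ≤ K → ∀ N : ℕ, 1 ≤ N → ∑ n ∈ Finset.Icc 1 N, tl K (δ n) ≤ ε * N := by
  classical
  obtain ⟨K0, hK0⟩ := exists_nat_ge (max (max x0 (4 / c)) (max 2 (1 + 4 / ε)))
  refine ⟨K0, fun K hK N hN => ?_⟩
  have hKr : (K0 : ℝ) ≤ K := by exact_mod_cast hK
  have b1 : x0 ≤ K := ((le_max_left _ _).trans (le_max_left _ _)).trans (hK0.trans hKr)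
  have b2 : 4 / c ≤ K := ((le_max_right _ _).trans (le_max_left _ _)).trans (hK0.trans hKr)
  have b3 : (2 : ℝ) ≤ K := ((le_max_left _ _).trans (le_max_right _ _)).trans (hK0.trans hKr)
  have b4 : 1 + 4 / ε ≤ K := ((le_max_right _ _).trans (le_max_right _ _)).trans (hK0.trans hKr)
  have hK2 : 2 ≤ K := by exact_mod_cast b3
  -- an upper bound for the values
  obtain ⟨M, hM⟩ : ∃ M : ℕ, ∀ n ∈ Finset.Icc 1 N, δ n ≤ M := by
    obtain ⟨M, hM⟩ := exists_nat_ge (∑ n ∈ Finset.Icc 1 N, |δ n|)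
    refine ⟨M, fun n hn => ?_⟩
    have := Finset.single_le_sum (f := fun n => |δ n|) (fun n _ => abs_nonneg _) hn
    exact ((le_abs_self _).trans this).trans hM
  set M' := max K M with hM'
  have hpt : ∀ n ∈ Finset.Icc 1 N, tl K (δ n) ≤
      ∑ k ∈ Finset.Icc K M', if (k : ℝ) ≤ δ n then ((k : ℝ) + 1) ^ 2 else 0 := by
    intro n hn
    unfold tl
    split_ifs with hd
    · have hd0 : 0 ≤ δ n := (Nat.cast_nonneg K).trans hd
      have hf1 : (⌊δ n⌋₊ : ℝ) ≤ δ n := Nat.floor_le hd0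
      have hf2 : δ n < ⌊δ n⌋₊ + 1 := Nat.lt_floor_add_one _
      have hmem : ⌊δ n⌋₊ ∈ Finset.Icc K M' := by
        rw [Finset.mem_Icc]
        refine ⟨Nat.le_floor hd, ?_⟩
        have h1 : (⌊δ n⌋₊ : ℝ) ≤ M := hf1.trans (hM n hn)
        have h2 : ⌊δ n⌋₊ ≤ M := by exact_mod_cast h1
        exact h2.trans (le_max_right _ _)
      have h3 := Finset.single_le_sum (f := fun k : ℕ => if (k : ℝ) ≤ δ n then ((k : ℝ) + 1) ^ 2 else 0)
        (fun k _ => by split_ifs <;> positivity) hmem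
      simp only [hf1, if_true] at h3
      refine le_trans ?_ h3
      gcongr
    · exact Finset.sum_nonneg fun k _ => by split_ifs <;> positivity
  refine (Finset.sum_le_sum hpt).trans ?_
  rw [Finset.sum_comm]
  have hterm : ∀ k ∈ Finset.Icc K M', ∑ n ∈ Finset.Icc 1 N,
      (if (k : ℝ) ≤ δ n then ((k : ℝ) + 1) ^ 2 else 0) ≤ 4 * N * (1 / (k : ℝ) ^ 2) := by
    intro k hk
    rw [Finset.mem_Icc] at hk
    have hkr : (K : ℝ) ≤ k := by exact_mod_cast hk.1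
    have hk2 : (2 : ℝ) ≤ k := b3.trans hkr
    have hcard := h N hN k (b1.trans hkr)
    have e : {n : ℕ | 1 ≤ n ∧ n ≤ N ∧ (k : ℝ) ≤ δ n} =
        ↑((Finset.Icc 1 N).filter fun n => (k : ℝ) ≤ δ n) := by
      ext n
      simp [and_assoc]
    rw [e, Set.ncard_coe_finset] at hcard
    rw [← Finset.sum_filter, Finset.sum_const, nsmul_eq_mul]
    have hlog : 0 ≤ Real.log k := Real.log_nonneg (by linarith)
    have hexp : Real.exp (-c * k * Real.log k) ≤ 1 / (k : ℝ) ^ 4 := by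
      have h1 : 4 ≤ c * k := by
        rw [div_le_iff₀ hc] at b2
        nlinarith
      have h2 : Real.exp (-c * k * Real.log k) ≤ Real.exp (-(4 * Real.log k)) := by
        apply Real.exp_le_exp.2
        nlinarith
      refine h2.trans (le_of_eq ?_)
      rw [Real.exp_neg, show (4 : ℝ) * Real.log k = ((4 : ℕ) : ℝ) * Real.log k by norm_num,
        Real.exp_nat_mul, Real.exp_log (by linarith), one_div]
    have hN0 : (0 : ℝ) ≤ N := Nat.cast_nonneg N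
    calc (((Finset.Icc 1 N).filter fun n => (k : ℝ) ≤ δ n).card : ℝ) * ((k : ℝ) + 1) ^ 2
        ≤ (N * (1 / (k : ℝ) ^ 4)) * ((k : ℝ) + 1) ^ 2 := by
          apply mul_le_mul_of_nonneg_right _ (by positivity)
          exact hcard.trans (mul_le_mul_of_nonneg_left hexp hN0)
      _ ≤ (N * (1 / (k : ℝ) ^ 4)) * (4 * (k : ℝ) ^ 2) := by
          apply mul_le_mul_of_nonneg_left _ (by positivity)
          nlinarith
      _ = _ := by
          field_simp
  refine (Finset.sum_le_sum hterm).trans ?_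
  rw [← Finset.mul_sum]
  have hs := inv_sq_sum K M' hK2 (le_max_left _ _)
  have hN0 : (0 : ℝ) ≤ N := Nat.cast_nonneg N
  have hM0 : 0 ≤ 1 / (M' : ℝ) := by positivity
  have h5 : 1 / ((K : ℝ) - 1) ≤ ε / 4 := by
    have h6 : 4 / ε ≤ K - 1 := by linarith
    rw [div_le_iff₀ hε] at h6
    rw [div_le_div_iff₀ (by linarith) (by norm_num)]
    linarith
  calc 4 * (N : ℝ) * ∑ k ∈ Finset.Icc K M', 1 / (k : ℝ) ^ 2 ≤ 4 * N * (ε / 4) := by
        apply mul_le_mul_of_nonneg_left _ (by positivity)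
        linarith
    _ = ε * N := by ring

end Pool.Agent.H707.SM
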