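import Mathlib

/-! Long gaps of a finite sequence are controlled by its pairs. -/

open Set Filter Topology MeasureTheory

namespace Pool.Agent.H707.SM

/-- indicator of `[c, d)` -/
noncomputable def chi (c d t : ℝ) : ℝ := (Ico c d).indicator (fun _ => (1 : ℝ)) t

lemma chi_of_mem {c d t : ℝ} (h1 : c ≤ t) (h2 : t < d) : chi c d t = 1 := by
  unfold chi
  rw [indicator_of_mem (mem_Ico.2 ⟨h1, h2⟩)]

lemma chi_of_not {c d t : ℝ} (h : ¬ (c ≤ t ∧ t < d)) : chi c d t = 0 := by
  unfold chi
  rw [indicator_of_notMem (by rw [mem_Ico]; exact h)]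

lemma chi_int (c d : ℝ) : Integrable (chi c d) := by
  unfold chi
  apply IntegrableOn.integrable_indicator _ measurableSet_Ico
  exact integrableOn_const (by rw [Real.volume_Ico]; exact ENNReal.ofReal_ne_top)

lemma integral_chi (c d : ℝ) : ∫ t, chi c d t = max 0 (d - c) := by
  unfold chi
  rw [integral_indicator measurableSet_Ico, setIntegral_const, smul_eq_mul, mul_one,
    Measure.real, Real.volume_Ico]
  rcases le_total 0 (d - c) with h | h
  · rw [ENNReal.toReal_ofReal h, max_eq_right h]
  · rw [ENNReal.ofReal_of_nonpos h, ENNReal.toReal_zero, max_eq_left h]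

lemma chi_mul (c d c' d' t : ℝ) : chi c d t * chi c' d' t = chi (max c c') (min d d') t := by
  by_cases h : c ≤ t ∧ t < d
  · by_cases h' : c' ≤ t ∧ t < d'
    · rw [chi_of_mem h.1 h.2, chi_of_mem h'.1 h'.2, chi_of_mem (max_le h.1 h'.1) (lt_min h.2 h'.2)]
      norm_num
    · rw [chi_of_not h', mul_zero, chi_of_not]
      rintro ⟨h1, h2⟩
      exact h' ⟨(le_max_right _ _).trans h1, h2.trans_le (min_le_right _ _)⟩
  · rw [chi_of_not h, zero_mul, chi_of_not]
    rintro ⟨h1, h2⟩
    exact h ⟨(le_max_left _ _).trans h1, h2.trans_le (min_le_left _ _)⟩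

/-- **the window inequality** -/
theorem window {y : ℕ → ℝ} {a b : ℕ} (hab : a ≤ b)
    (hy : ∀ n k : ℕ, a ≤ n → n ≤ k → k ≤ b → y n ≤ y k) {x : ℝ} (hx : 0 < x) (q : ℕ) :
    ((q : ℝ) * (q + 1)) * ∑ n ∈ Finset.Ico a b, max 0 (y (n + 1) - y n - x) ≤
      ∑ n ∈ Finset.Icc a b, ∑ k ∈ Finset.Icc a b, max 0 (x - |y n - y k|) -
        (2 * q + 1) * x * (Finset.Icc a b).card + (q : ℝ) * (q + 1) * (y b - y a + x) := by
  classical
  -- the pointwise inequality
  have pt : ∀ t : ℝ, ((q : ℝ) * (q + 1)) * ∑ n ∈ Finset.Ico a b, chi (y n) (y (n + 1) - x) t ≤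
      ∑ n ∈ Finset.Icc a b, ∑ k ∈ Finset.Icc a b, chi (max (y n - x) (y k - x)) (min (y n) (y k)) t -
        (2 * q + 1) * ∑ n ∈ Finset.Icc a b, chi (y n - x) (y n) t +
        (q : ℝ) * (q + 1) * chi (y a - x) (y b) t := by
    intro t
    have e1 : ∑ n ∈ Finset.Icc a b, ∑ k ∈ Finset.Icc a b,
        chi (max (y n - x) (y k - x)) (min (y n) (y k)) t =
        (∑ n ∈ Finset.Icc a b, chi (y n - x) (y n) t) ^ 2 := by
      rw [sq, Finset.sum_mul_sum]
      apply Finset.sum_congr rfl
      intro n _
      apply Finset.sum_congr rfl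
      intro k _
      rw [chi_mul]
    rw [e1]
    by_cases hI : y a - x ≤ t ∧ t < y b
    · rw [chi_of_mem hI.1 hI.2]
      -- the number of points in the window
      obtain ⟨M, hM⟩ : ∃ M : ℕ, ∑ n ∈ Finset.Icc a b, chi (y n - x) (y n) t = M := by
        refine ⟨((Finset.Icc a b).filter (fun n => y n - x ≤ t ∧ t < y n)).card, ?_⟩
        rw [Finset.card_filter]
        push_cast
        apply Finset.sum_congr rfl
        intro n _
        split_ifs with h
        · exact chi_of_mem h.1 h.2
        · exact chi_of_not h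
      rw [hM]
      have hprod : (0 : ℝ) ≤ ((M : ℝ) - q) * ((M : ℝ) - q - 1) := by
        rcases le_or_gt M q with h | h
        · have h1 : (M : ℝ) ≤ q := by exact_mod_cast h
          nlinarith
        · have h1 : (q : ℝ) + 1 ≤ M := by exact_mod_cast h
          nlinarith
      by_cases hex : ∃ n ∈ Finset.Ico a b, y n ≤ t ∧ t < y (n + 1) - x
      · obtain ⟨n0, hn0, h1, h2⟩ := hex
        rw [Finset.mem_Ico] at hn0
        have hM0 : (M : ℝ) = 0 := by
          rw [← hM]
          apply Finset.sum_eq_zero
          intro k hk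
          rw [Finset.mem_Icc] at hk
          apply chi_of_not
          rintro ⟨h3, h4⟩
          rcases le_or_gt k n0 with h5 | h5
          · have := hy k n0 hk.1 h5 (by omega)
            linarith
          · have := hy (n0 + 1) k (by omega) h5 hk.2
            linarith
        have hsum : ∑ n ∈ Finset.Ico a b, chi (y n) (y (n + 1) - x) t = 1 := by
          rw [Finset.sum_eq_single n0]
          · exact chi_of_mem h1 h2
          · intro k hk hkn
            rw [Finset.mem_Ico] at hk
            apply chi_of_not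
            rintro ⟨h3, h4⟩
            rcases lt_or_gt_of_ne hkn with h5 | h5
            · have := hy (k + 1) n0 (by omega) h5 (by omega)
              linarith
            · have := hy (n0 + 1) k (by omega) h5 (by omega)
              linarith
          · intro h
            exact absurd (Finset.mem_Ico.2 hn0) h
        rw [hsum, hM0]
        ring_nf
        exact le_rfl
      · have hsum : ∑ n ∈ Finset.Ico a b, chi (y n) (y (n + 1) - x) t = 0 := by
          apply Finset.sum_eq_zero
          intro k hk
          apply chi_of_not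
          intro h
          exact hex ⟨k, hk, h⟩
        rw [hsum]
        nlinarith
    · have hz1 : ∑ n ∈ Finset.Icc a b, chi (y n - x) (y n) t = 0 := by
        apply Finset.sum_eq_zero
        intro k hk
        rw [Finset.mem_Icc] at hk
        apply chi_of_not
        rintro ⟨h3, h4⟩
        apply hI
        have h5 := hy a k le_rfl hk.1 hk.2
        have h6 := hy k b hk.1 hk.2 le_rfl
        exact ⟨by linarith, by linarith⟩
      have hz2 : ∑ n ∈ Finset.Ico a b, chi (y n) (y (n + 1) - x) t = 0 := by
        apply Finset.sum_eq_zero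
        intro k hk
        rw [Finset.mem_Ico] at hk
        apply chi_of_not
        rintro ⟨h3, h4⟩
        apply hI
        have h5 := hy a k le_rfl hk.1 hk.2.le
        have h6 := hy (k + 1) b (by omega) (by omega) le_rfl
        exact ⟨by linarith, by linarith⟩
      rw [hz1, hz2, chi_of_not hI]
      simp
  have i1 : Integrable fun t => ((q : ℝ) * (q + 1)) *
      ∑ n ∈ Finset.Ico a b, chi (y n) (y (n + 1) - x) t :=
    (integrable_finsetSum _ fun n _ => chi_int _ _).const_mul _
  have j1 : Integrable fun t => ∑ n ∈ Finset.Icc a b, ∑ k ∈ Finset.Icc a b,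
      chi (max (y n - x) (y k - x)) (min (y n) (y k)) t :=
    integrable_finsetSum _ fun n _ => integrable_finsetSum _ fun k _ => chi_int _ _
  have j2 : Integrable fun t => (2 * (q : ℝ) + 1) * ∑ n ∈ Finset.Icc a b, chi (y n - x) (y n) t :=
    (integrable_finsetSum _ fun n _ => chi_int _ _).const_mul _
  have j3 : Integrable fun t => (q : ℝ) * (q + 1) * chi (y a - x) (y b) t :=
    (chi_int _ _).const_mul _
  have j12 : Integrable fun t => ∑ n ∈ Finset.Icc a b, ∑ k ∈ Finset.Icc a b,
      chi (max (y n - x) (y k - x)) (min (y n) (y k)) t -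
        (2 * (q : ℝ) + 1) * ∑ n ∈ Finset.Icc a b, chi (y n - x) (y n) t := j1.sub j2
  have h := integral_mono i1 (j12.add j3) pt
  have r1 : ∫ t, ((q : ℝ) * (q + 1)) * ∑ n ∈ Finset.Ico a b, chi (y n) (y (n + 1) - x) t =
      ((q : ℝ) * (q + 1)) * ∑ n ∈ Finset.Ico a b, max 0 (y (n + 1) - y n - x) := by
    rw [integral_const_mul, integral_finsetSum _ fun n _ => chi_int _ _]
    congr 1
    apply Finset.sum_congr rfl
    intro n _
    rw [integral_chi]
    congr 1
    ring
  have r2 : ∫ t, ((∑ n ∈ Finset.Icc a b, ∑ k ∈ Finset.Icc a b,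
      chi (max (y n - x) (y k - x)) (min (y n) (y k)) t -
        (2 * (q : ℝ) + 1) * ∑ n ∈ Finset.Icc a b, chi (y n - x) (y n) t) +
        (q : ℝ) * (q + 1) * chi (y a - x) (y b) t) =
      ∑ n ∈ Finset.Icc a b, ∑ k ∈ Finset.Icc a b, max 0 (x - |y n - y k|) -
        (2 * q + 1) * x * (Finset.Icc a b).card + (q : ℝ) * (q + 1) * (y b - y a + x) := by
    rw [integral_add j12 j3, integral_sub j1 j2, integral_const_mul, integral_const_mul,
      integral_chi, integral_finsetSum _ fun n _ => chi_int _ _,
      integral_finsetSum _ fun n _ => integrable_finsetSum _ fun k _ => chi_int _ _]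
    have e1 : ∑ n ∈ Finset.Icc a b, ∫ t, ∑ k ∈ Finset.Icc a b,
        chi (max (y n - x) (y k - x)) (min (y n) (y k)) t =
        ∑ n ∈ Finset.Icc a b, ∑ k ∈ Finset.Icc a b, max 0 (x - |y n - y k|) := by
      apply Finset.sum_congr rfl
      intro n _
      rw [integral_finsetSum _ fun k _ => chi_int _ _]
      apply Finset.sum_congr rfl
      intro k _
      rw [integral_chi]
      congr 1
      rcases le_total (y n) (y k) with h1 | h1
      · rw [min_eq_left h1, max_eq_right (by linarith), abs_of_nonpos (by linarith)]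
        ring
      · rw [min_eq_right h1, max_eq_left (by linarith), abs_of_nonneg (by linarith)]
        ring
    have e2 : ∑ n ∈ Finset.Icc a b, ∫ t, chi (y n - x) (y n) t = x * (Finset.Icc a b).card := by
      have : ∀ n ∈ Finset.Icc a b, ∫ t, chi (y n - x) (y n) t = x := by
        intro n _
        rw [integral_chi, max_eq_right (by linarith)]
        ring
      rw [Finset.sum_congr rfl this, Finset.sum_const, nsmul_eq_mul]
      ring
    have e3 : max 0 (y b - (y a - x)) = y b - y a + x := by
      have := hy a b le_rfl hab le_rfl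
      rw [max_eq_right (by linarith)]
      ring
    rw [e1, e2, e3]
    ring
  rw [r1] at h
  exact h.trans (le_of_eq r2)

end Pool.Agent.H707.SM
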