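import Pool.Agent.Y747.Glob
import Pool.Agent.H707.SM.Win
import Pool.Agent.H707.SM.Trap

/-! The mean of `min B (d - x)₊` over the gaps. -/

open Filter Topology Set MeasureTheory

namespace Pool.Agent.H707.SM

open SG (ord NZ)
open Pool.Agent.TH873.EW (ct mom XV)
open Pool.Agent.Y747 (Bx mem_Bx)

lemma Bx_eq (V : ℝ) : Bx V = Finset.Icc (NZ (V + 1) + 1) (NZ (2 * V - 1)) := by
  ext n
  rw [mem_Bx, Finset.mem_Icc]
  constructor
  · rintro ⟨h1, h2, h3⟩
    refine ⟨?_, (SG.ord_le_iff h1 _).1 h3⟩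
    by_contra h
    have := (SG.ord_le_iff h1 (V + 1)).2 (by omega)
    linarith
  · rintro ⟨h1, h2⟩
    have hn : 1 ≤ n := by omega
    refine ⟨hn, ?_, (SG.ord_le_iff hn _).2 h2⟩
    by_contra h
    rw [not_lt] at h
    have := (SG.ord_le_iff hn _).1 h
    omega

lemma XV_large (c : ℝ) : ∃ V0 : ℝ, ∀ V : ℝ, V0 ≤ V → c ≤ XV V := by
  have hpi := Real.pi_gt_three
  refine ⟨max 10 (2 + |c| * (2 * Real.pi)), fun V hV => ?_⟩
  have h1 : 10 ≤ V := (le_max_left _ _).trans hV
  have h2 : 2 + |c| * (2 * Real.pi) ≤ V := (le_max_right _ _).trans hV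
  have hlog : 1 ≤ Real.log V := by
    rw [Real.le_log_iff_exp_le (by linarith)]
    have := Real.exp_one_lt_d9
    linarith
  unfold Pool.Agent.TH873.EW.XV
  rw [le_div_iff₀ (by positivity)]
  calc c * (2 * Real.pi) ≤ |c| * (2 * Real.pi) := by
        apply mul_le_mul_of_nonneg_right (le_abs_self c) (by positivity)
    _ ≤ (V - 2) * 1 := by linarith
    _ ≤ (V - 2) * Real.log V := by
        apply mul_le_mul_of_nonneg_left hlog (by linarith)

lemma exp_aux {e D : ℝ} (he0 : 0 < e) (he1 : e ≤ 1 / 2) (hD : |D| ≤ e) :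
    1 ≤ (1 + e) * Real.exp (-D ^ 2 / 4) := by
  have hD2 : D ^ 2 ≤ e ^ 2 := by
    rw [← sq_abs]
    exact pow_le_pow_left₀ (abs_nonneg _) hD 2
  have hexp : 1 - e ^ 2 / 4 ≤ Real.exp (-D ^ 2 / 4) := by
    have := Real.add_one_le_exp (-D ^ 2 / 4)
    linarith
  have h1 : (1 + e) * (1 - e ^ 2 / 4) ≤ (1 + e) * Real.exp (-D ^ 2 / 4) :=
    mul_le_mul_of_nonneg_left hexp (by linarith)
  have h2 : e ^ 2 ≤ 1 / 2 * e := by nlinarith
  have h3 : e * e ^ 2 ≤ e * (1 / 2 * e) := mul_le_mul_of_nonneg_left h2 he0.le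
  nlinarith

lemma pair_le {g : ℝ → ℝ} {x κ e : ℝ} (hκ : 0 < κ) (hκe : x ≤ e * κ) (he0 : 0 < e)
    (he1 : e ≤ 1 / 2) (hmaj : ∀ u, max 0 (x - |u|) ≤ ct g u) (D : ℝ) :
    max 0 (x - |κ * D|) ≤ (1 + e) * (Real.exp (-D ^ 2 / 4) * ct g (κ * D)) := by
  have hm := hmaj (κ * D)
  have hct0 : 0 ≤ ct g (κ * D) := (le_max_left _ _).trans hm
  rcases le_or_gt x |κ * D| with h | h
  · rw [max_eq_left (by linarith)]
    positivity
  · have hD : |D| ≤ e := by
      rw [abs_mul, abs_of_pos hκ] at h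
      by_contra h'
      rw [not_le] at h'
      have : κ * e < κ * |D| := mul_lt_mul_of_pos_left h' hκ
      linarith
    have h5 := exp_aux he0 he1 hD
    calc max 0 (x - |κ * D|) ≤ 1 * ct g (κ * D) := by
          rw [one_mul]; exact hm
      _ ≤ ((1 + e) * Real.exp (-D ^ 2 / 4)) * ct g (κ * D) :=
          mul_le_mul_of_nonneg_right h5 hct0
      _ = _ := by ring

lemma fin_arith {G e x q X P S C L B ε : ℝ} (he0 : 0 < e) (he1 : e ≤ 1 / 2) (hx : 0 < x)
    (hq0 : 0 ≤ q) (hX : 0 ≤ X) (hB : B = |G| + 4 + (2 * q + 1) * x + q * (q + 1)) (heB : e * B ≤ ε)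
    (hS : S ≤ (1 + e) * P) (hP : P ≤ (G + 2 * e) * X) (hC : (1 - e) * X ≤ C)
    (hL : L ≤ (1 + e) * X) :
    S - (2 * q + 1) * x * C + q * (q + 1) * L ≤ (G - (2 * q + 1) * x + q * (q + 1) + ε) * X := by
  have r1 : (1 + e) * P ≤ (1 + e) * ((G + 2 * e) * X) :=
    mul_le_mul_of_nonneg_left hP (by linarith)
  have r2 : (2 * q + 1) * x * ((1 - e) * X) ≤ (2 * q + 1) * x * C :=
    mul_le_mul_of_nonneg_left hC (by positivity)
  have r3 : q * (q + 1) * L ≤ q * (q + 1) * ((1 + e) * X) :=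
    mul_le_mul_of_nonneg_left hL (by positivity)
  have r4 : (1 + e) * (G + 2 * e) ≤ G + e * (|G| + 4) := by
    have h1 : e * G ≤ e * |G| := mul_le_mul_of_nonneg_left (le_abs_self G) he0.le
    nlinarith
  have r5 := mul_le_mul_of_nonneg_right r4 hX
  have r6 : e * B * X ≤ ε * X := mul_le_mul_of_nonneg_right heB hX
  have r7 : e * B * X = e * (|G| + 4) * X + e * ((2 * q + 1) * x) * X + e * (q * (q + 1)) * X := by
    rw [hB]; ring
  have r8 : (1 + e) * ((G + 2 * e) * X) = (1 + e) * (G + 2 * e) * X := by ring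
  have r9 : (2 * q + 1) * x * ((1 - e) * X) = (2 * q + 1) * x * X - e * ((2 * q + 1) * x) * X := by
    ring
  have r10 : q * (q + 1) * ((1 + e) * X) = q * (q + 1) * X + e * (q * (q + 1)) * X := by ring
  have r11 : (G + e * (|G| + 4)) * X = G * X + e * (|G| + 4) * X := by ring
  have r12 : (G - (2 * q + 1) * x + q * (q + 1) + ε) * X = G * X - (2 * q + 1) * x * X +
      q * (q + 1) * X + ε * X := by ring
  rw [r12]
  linarith

/-- the sum over the long gaps of a block -/
theorem block (hRH : RiemannHypothesis) {g : ℝ → ℝ} (hg : ContDiff ℝ 1 g) (h1 : g 1 = 0) {x : ℝ}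
    (hx : 0 < x) (hmaj : ∀ u, max 0 (x - |u|) ≤ ct g u) (q : ℕ) {ε : ℝ} (hε : 0 < ε) :
    ∃ μ : ℝ, 1 - ε ≤ μ ∧ μ < 1 ∧ 0 < μ ∧ ∃ V0 : ℝ, 10 ≤ V0 ∧ ∀ V : ℝ, V0 ≤ V →
      ((q : ℝ) * (q + 1)) * ∑ n ∈ (Bx V).filter (fun n => n + 1 ∈ Bx V),
        max 0 (μ * Real.log V / (2 * Real.pi) * (ord (n + 1) - ord n) - x) ≤
      (mom g - (2 * q + 1) * x + q * (q + 1) + ε) * XV V ∧ ((Bx V).card : ℝ) ≤ (1 + ε) * XV V := by
  classical
  set I : ℝ := ∫ t in (0 : ℝ)..1, t * g t with hI
  have hmomI : mom g = g 0 + 2 * I := rfl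
  have hq0 : (0 : ℝ) ≤ q := Nat.cast_nonneg q
  set B : ℝ := |mom g| + 4 + (2 * q + 1) * x + q * (q + 1) with hB
  have hB4 : 4 ≤ B := by
    have := abs_nonneg (mom g)
    have : 0 ≤ (2 * (q : ℝ) + 1) * x := by positivity
    have : 0 ≤ (q : ℝ) * (q + 1) := by positivity
    linarith
  set e : ℝ := min (1 / 2) (ε / B) with he
  have he0 : 0 < e := lt_min (by norm_num) (by positivity)
  have he1 : e ≤ 1 / 2 := min_le_left _ _
  have heB : e * B ≤ ε := by
    have : e ≤ ε / B := min_le_right _ _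
    rwa [le_div_iff₀ (by linarith)] at this
  have heε : e ≤ ε := by
    have : e * 1 ≤ e * B := mul_le_mul_of_nonneg_left (by linarith) he0.le
    linarith
  -- choice of `μ`
  have hc : ContinuousAt (fun μ : ℝ => g 0 / μ + 2 * μ * I) 1 := by
    have : ContinuousAt (fun μ : ℝ => g 0 / μ) 1 :=
      continuousAt_const.div continuousAt_id one_ne_zero
    exact this.add (by fun_prop)
  have hev : ∀ᶠ μ in 𝓝[<] (1 : ℝ), g 0 / μ + 2 * μ * I < mom g + e := by
    apply nhdsWithin_le_nhds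
    apply hc.eventually_lt continuousAt_const
    simp only [div_one, mul_one]
    linarith
  have hev2 : ∀ᶠ μ in 𝓝[<] (1 : ℝ), max (1 / 2) (1 - ε) < μ := by
    apply nhdsWithin_le_nhds
    apply lt_mem_nhds
    exact max_lt (by norm_num) (by linarith)
  have hlt : ∀ᶠ s in 𝓝[<] (1 : ℝ), s < 1 := self_mem_nhdsWithin
  obtain ⟨μ, ⟨hμ1, hμ2⟩, hμ3⟩ := ((hev.and hev2).and hlt).exists
  have hμh : 1 / 2 < μ := (le_max_left _ _).trans_lt hμ2
  have hμpos : 0 < μ := by linarith
  have hμε : 1 - ε ≤ μ := ((le_max_right _ _).trans_lt hμ2).le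
  refine ⟨μ, hμε, hμ3, hμpos, ?_⟩
  have hpi := Real.pi_gt_three
  obtain ⟨V1, hV1, hp⟩ := Pool.Agent.Y747.blk_pair hRH hg h1 hμpos hμ3 he0
  obtain ⟨V2, hV2⟩ := XV_large (max 1 (x / e))
  have hlim : Tendsto (fun V : ℝ => μ * Real.log V / (2 * Real.pi)) atTop atTop :=
    (Real.tendsto_log_atTop.const_mul_atTop hμpos).atTop_div_const (by positivity)
  obtain ⟨V3, hV3⟩ := (hlim.eventually_ge_atTop (max 1 (x / e))).exists_forall_of_atTop
  refine ⟨max V1 (max V2 V3), hV1.trans (le_max_left _ _), fun V hV => ?_⟩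
  have c1 : V1 ≤ V := (le_max_left _ _).trans hV
  have c2 : V2 ≤ V := ((le_max_left _ _).trans (le_max_right _ _)).trans hV
  have c3 : V3 ≤ V := ((le_max_right _ _).trans (le_max_right _ _)).trans hV
  have hV10 : 10 ≤ V := hV1.trans c1
  obtain ⟨p1, p2⟩ := hp V c1
  have d2 := hV2 V c2
  have d3 := hV3 V c3
  set X := XV V with hX
  set κ : ℝ := μ * Real.log V / (2 * Real.pi) with hκ
  have hX1 : 1 ≤ X := (le_max_left _ _).trans d2
  have hXe : x ≤ e * X := by
    have := (le_max_right _ _).trans d2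
    rw [div_le_iff₀ he0] at this
    linarith
  have hκ1 : 1 ≤ κ := (le_max_left _ _).trans d3
  have hκe : x ≤ e * κ := by
    have := (le_max_right _ _).trans d3
    rw [div_le_iff₀ he0] at this
    linarith
  have hlogV : 0 < Real.log V := Real.log_pos (by linarith)
  have q1 := (abs_le.1 p1).1
  have q2 := (abs_le.1 p1).2
  refine ⟨?_, by
    have : e * X ≤ ε * X := mul_le_mul_of_nonneg_right heε (by linarith)
    linarith⟩
  -- the block is an interval
  set a := NZ (V + 1) + 1 with ha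
  set b := NZ (2 * V - 1) with hb
  have hBx : Bx V = Finset.Icc a b := Bx_eq V
  have hab : a ≤ b := by
    by_contra h
    have h0 : Bx V = ∅ := by
      rw [hBx, Finset.Icc_eq_empty]
      exact h
    rw [h0, Finset.card_empty, Nat.cast_zero] at q1
    have : e * X ≤ 1 / 2 * X := mul_le_mul_of_nonneg_right he1 (by linarith)
    linarith
  have haB : a ∈ Bx V := by rw [hBx]; exact Finset.mem_Icc.2 ⟨le_rfl, hab⟩
  have hbB : b ∈ Bx V := by rw [hBx]; exact Finset.mem_Icc.2 ⟨hab, le_rfl⟩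
  set y : ℕ → ℝ := fun n => κ * ord n with hy
  have hymono : ∀ n k : ℕ, a ≤ n → n ≤ k → k ≤ b → y n ≤ y k := by
    intro n k h2 h3 _
    simp only [hy]
    apply mul_le_mul_of_nonneg_left _ (by linarith)
    exact SG.ord_mono (by omega) h3
  have hw := window hab hymono hx q
  have hfil : (Bx V).filter (fun n => n + 1 ∈ Bx V) = Finset.Ico a b := by
    ext n
    rw [Finset.mem_filter, hBx, Finset.mem_Icc, Finset.mem_Icc, Finset.mem_Ico]
    omega
  rw [hfil]
  have e1 : ∑ n ∈ Finset.Ico a b, max 0 (κ * (ord (n + 1) - ord n) - x) =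
      ∑ n ∈ Finset.Ico a b, max 0 (y (n + 1) - y n - x) := by
    apply Finset.sum_congr rfl
    intro n _
    simp only [hy]
    congr 2
    ring
  rw [e1]
  refine hw.trans ?_
  -- the pairs
  have hpair : ∑ n ∈ Finset.Icc a b, ∑ k ∈ Finset.Icc a b, max 0 (x - |y n - y k|) ≤
      (1 + e) * ∑ n ∈ Bx V, ∑ m ∈ Bx V, Real.exp (-(ord n - ord m) ^ 2 / 4) *
        ct g (κ * (ord n - ord m)) := by
    rw [hBx, Finset.mul_sum]
    apply Finset.sum_le_sum
    intro n _
    rw [Finset.mul_sum]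
    apply Finset.sum_le_sum
    intro k _
    have hyy : y n - y k = κ * (ord n - ord k) := by simp only [hy]; ring
    rw [hyy]
    exact pair_le (by linarith) hκe he0 he1 hmaj _
  have q3 := (abs_le.1 p2).2
  set P := ∑ n ∈ Bx V, ∑ m ∈ Bx V, Real.exp (-(ord n - ord m) ^ 2 / 4) *
        ct g (κ * (ord n - ord m)) with hP
  have hPle : P ≤ (mom g + 2 * e) * X := by
    have h6 : X * (g 0 / μ + 2 * μ * I) ≤ X * (mom g + e) :=
      mul_le_mul_of_nonneg_left hμ1.le (by linarith)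
    have h7 : (mom g + 2 * e) * X = X * (mom g + e) + e * X := by ring
    rw [h7]
    linarith
  -- the length
  have hlen : y b - y a ≤ X := by
    have h6 : ord b ≤ 2 * V - 1 := (mem_Bx.1 hbB).2.2
    have h7 : V + 1 < ord a := (mem_Bx.1 haB).2.1
    have h8 : y b - y a ≤ κ * (V - 2) := by
      simp only [hy]
      have : κ * (ord b - ord a) ≤ κ * (V - 2) :=
        mul_le_mul_of_nonneg_left (by linarith) (by linarith)
      linarith
    have h9 : κ * (V - 2) = μ * X := by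
      rw [hκ, hX]
      unfold Pool.Agent.TH873.EW.XV
      ring
    rw [h9] at h8
    have h10 : μ * X ≤ 1 * X := mul_le_mul_of_nonneg_right hμ3.le (by linarith)
    linarith
  have hcard : (1 - e) * X ≤ ((Finset.Icc a b).card : ℝ) := by
    rw [← hBx]
    linarith
  exact fin_arith he0 he1 hx hq0 (by linarith) hB heB hpair hPle hcard (by linarith)

/-- **the mean of `min B (d - x)₊`** -/
theorem mean (hRH : RiemannHypothesis) {g : ℝ → ℝ} (hg : ContDiff ℝ 1 g) (h1 : g 1 = 0) {x : ℝ}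
    (hx : 0 < x) (hmaj : ∀ u, max 0 (x - |u|) ≤ ct g u) {q : ℕ} (hq : 1 ≤ q) {d : ℕ → ℝ}
    (hd : ∀ η : ℝ, 0 < η → ∃ V1 : ℝ, ∀ V : ℝ, V1 ≤ V → ∀ n : ℕ, n ∈ Bx V → n + 1 ∈ Bx V →
      d n ≤ (1 + η) * (Real.log V / (2 * Real.pi) * (ord (n + 1) - ord n)))
    {B : ℝ} (hB : 0 ≤ B) {ε : ℝ} (hε : 0 < ε) :
    ∀ᶠ N : ℕ in atTop, ∑ n ∈ Finset.Icc 1 N, mc B x (d n) ≤
      ((mom g - (2 * q + 1) * x + q * (q + 1)) / ((q : ℝ) * (q + 1)) + ε) * N := by
  classical
  set Q : ℝ := (q : ℝ) * (q + 1) with hQ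
  have hq1 : (1 : ℝ) ≤ q := by exact_mod_cast hq
  have hQ1 : 1 ≤ Q := by rw [hQ]; nlinarith
  set A : ℝ := (mom g - (2 * q + 1) * x + Q) / Q with hA
  apply Pool.Agent.Y747.average hRH A B (fun n => mc B x (d n)) (fun n => mc_nonneg hB)
    (fun n => mc_le _ _ _) _ ε hε
  intro ε hε
  set M : ℝ := 4 * |A| + 8 * x + 8 with hM
  have hM8 : 8 ≤ M := by
    have := abs_nonneg A
    linarith
  set e : ℝ := min (1 / 2) (ε / M) with he
  have he0 : 0 < e := lt_min (by norm_num) (by positivity)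
  have he1 : e ≤ 1 / 2 := min_le_left _ _
  have heM : e * M ≤ ε := by
    have : e ≤ ε / M := min_le_right _ _
    rwa [le_div_iff₀ (by linarith)] at this
  obtain ⟨μ, hμe, hμ1, hμ0, V0, hV0, hblk⟩ := block hRH hg h1 hx hmaj q he0
  obtain ⟨V1, hV1⟩ := hd e he0
  obtain ⟨V2, hV2⟩ := XV_large (max 1 (B / e))
  refine ⟨max V0 (max V1 V2), hV0.trans (le_max_left _ _), fun V hV => ?_⟩
  have c1 : V0 ≤ V := (le_max_left _ _).trans hV
  have c2 : V1 ≤ V := ((le_max_left _ _).trans (le_max_right _ _)).trans hV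
  have c3 : V2 ≤ V := ((le_max_right _ _).trans (le_max_right _ _)).trans hV
  have hV10 : 10 ≤ V := hV0.trans c1
  obtain ⟨b1, b2⟩ := hblk V c1
  have b3 := hV2 V c3
  set X := XV V with hX
  have hX1 : 1 ≤ X := (le_max_left _ _).trans b3
  have hXB : B ≤ e * X := by
    have := (le_max_right _ _).trans b3
    rw [div_le_iff₀ he0] at this
    linarith
  have hlogV : 0 < Real.log V := Real.log_pos (by linarith)
  have hpi := Real.pi_pos
  set c : ℝ := (1 + e) / μ with hc
  have hμh : 1 / 2 ≤ μ := by linarith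
  have hc1 : 1 ≤ c := by
    rw [hc, le_div_iff₀ hμ0]
    linarith
  have hc2 : c ≤ 1 + 4 * e := by
    rw [hc, div_le_iff₀ hμ0]
    nlinarith
  set S' := (Bx V).filter (fun n => n + 1 ∈ Bx V) with hS'
  have hsplit := Finset.sum_filter_add_sum_filter_not (Bx V) (fun n => n + 1 ∈ Bx V)
    (fun n => mc B x (d n))
  rw [← hS'] at hsplit
  -- the exceptional index
  have hexc : ∑ n ∈ (Bx V).filter (fun n => ¬ n + 1 ∈ Bx V), mc B x (d n) ≤ B := by
    have hsub : (Bx V).filter (fun n => ¬ n + 1 ∈ Bx V) ⊆ {NZ (2 * V - 1)} := by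
      intro n hn
      rw [Finset.mem_filter, Bx_eq, Finset.mem_Icc, Finset.mem_Icc] at hn
      rw [Finset.mem_singleton]
      omega
    calc ∑ n ∈ (Bx V).filter (fun n => ¬ n + 1 ∈ Bx V), mc B x (d n) ≤
        ∑ n ∈ {NZ (2 * V - 1)}, mc B x (d n) :=
          Finset.sum_le_sum_of_subset_of_nonneg hsub fun n _ _ => mc_nonneg hB
      _ = mc B x (d (NZ (2 * V - 1))) := Finset.sum_singleton _ _
      _ ≤ B := mc_le _ _ _
  -- the other indices
  have hmain : ∀ n ∈ S', mc B x (d n) ≤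
      c * max 0 (μ * Real.log V / (2 * Real.pi) * (ord (n + 1) - ord n) - x) + 4 * e * x := by
    intro n hn
    rw [hS', Finset.mem_filter] at hn
    have h2 := hV1 V c2 n hn.1 hn.2
    set D : ℝ := μ * Real.log V / (2 * Real.pi) * (ord (n + 1) - ord n) with hD
    have h3 : (1 + e) * (Real.log V / (2 * Real.pi) * (ord (n + 1) - ord n)) = c * D := by
      rw [hc, hD]
      field_simp
    rw [h3] at h2
    refine (min_le_right _ _).trans ?_
    have hD0 : 0 ≤ max 0 (D - x) := le_max_left _ _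
    have hD1 : D - x ≤ max 0 (D - x) := le_max_right _ _
    apply max_le
    · positivity
    · have h4 : c * (D - x) ≤ c * max 0 (D - x) := mul_le_mul_of_nonneg_left hD1 (by linarith)
      have h5 : (c - 1) * x ≤ 4 * e * x := mul_le_mul_of_nonneg_right (by linarith) hx.le
      have h6 : c * (D - x) = c * D - c * x := by ring
      have h7 : (c - 1) * x = c * x - x := by ring
      linarith
  have hS'card : (S'.card : ℝ) ≤ (1 + e) * X := by
    have : (S'.card : ℝ) ≤ (Bx V).card := by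
      exact_mod_cast Finset.card_le_card (Finset.filter_subset _ _)
    exact this.trans b2
  have hsum := Finset.sum_le_sum hmain
  rw [Finset.sum_add_distrib, Finset.sum_const, nsmul_eq_mul, ← Finset.mul_sum] at hsum
  set W := ∑ n ∈ S', max 0 (μ * Real.log V / (2 * Real.pi) * (ord (n + 1) - ord n) - x) with hW
  have hW0 : 0 ≤ W := Finset.sum_nonneg fun _ _ => le_max_left _ _
  have hAQ : mom g - (2 * q + 1) * x + Q = A * Q := by
    rw [hA]
    field_simp
  have h5 : W ≤ (A + e) * X := by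
    have h6 : Q * W ≤ (A * Q + e) * X := by
      rw [← hAQ]
      exact b1
    have h7 : (A * Q + e) * X ≤ Q * ((A + e) * X) := by
      have i1 : 0 ≤ e * X := mul_nonneg he0.le (by linarith)
      have i2 : 1 * (e * X) ≤ Q * (e * X) := mul_le_mul_of_nonneg_right hQ1 i1
      have i3 : Q * ((A + e) * X) = A * Q * X + Q * (e * X) := by ring
      have i4 : (A * Q + e) * X = A * Q * X + e * X := by ring
      linarith
    exact le_of_mul_le_mul_left (h6.trans h7) (by linarith)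
  have h8 : c * W ≤ (A + e * (4 * |A| + 3)) * X := by
    have h9 : 0 ≤ (A + e) * X := hW0.trans h5
    calc c * W ≤ c * ((A + e) * X) := mul_le_mul_of_nonneg_left h5 (by linarith)
      _ ≤ (1 + 4 * e) * ((A + e) * X) := mul_le_mul_of_nonneg_right hc2 h9
      _ = (A + e * (4 * A + 1 + 4 * e)) * X := by ring
      _ ≤ _ := by
        apply mul_le_mul_of_nonneg_right _ (by linarith)
        have i1 := le_abs_self A
        have i2 : e * (4 * A + 1 + 4 * e) ≤ e * (4 * |A| + 3) :=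
          mul_le_mul_of_nonneg_left (by linarith) he0.le
        linarith
  have h11 : (S'.card : ℝ) * (4 * e * x) ≤ e * (8 * x) * X := by
    calc (S'.card : ℝ) * (4 * e * x) ≤ ((1 + e) * X) * (4 * e * x) :=
          mul_le_mul_of_nonneg_right hS'card (by positivity)
      _ ≤ (2 * X) * (4 * e * x) := by
          apply mul_le_mul_of_nonneg_right _ (by positivity)
          exact mul_le_mul_of_nonneg_right (by linarith) (by linarith)
      _ = _ := by ring
  have h12 : e * M * X ≤ ε * X := mul_le_mul_of_nonneg_right heM (by linarith)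
  have h13 : e * M * X = e * (4 * |A| + 3) * X + e * (8 * x) * X + 5 * (e * X) := by
    rw [hM]; ring
  have h14 : 0 ≤ e * X := mul_nonneg he0.le (by linarith)
  have h15 : (A + e * (4 * |A| + 3)) * X = A * X + e * (4 * |A| + 3) * X := by ring
  have h16 : (A + ε) * X = A * X + ε * X := by ring
  rw [← hsplit, h16]
  linarith

end Pool.Agent.H707.SM
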