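import Pool.Agent.H707.SM.Par

/-! The majorant inequality for the Hermite interpolant of a tent. -/

open Set Filter Topology

namespace Pool.Agent.H707.SM

/-- the rational factor of the majorant of the tent `(x - |u|)₊`, `x = m + 1/2` -/
noncomputable def Rm (x : ℝ) (m : ℕ) (u : ℝ) : ℝ :=
  x / u ^ 2 + ∑ k ∈ Finset.range m, ((x - (k + 1)) * (1 / (u - (k + 1)) ^ 2 + 1 / (u + (k + 1)) ^ 2) -
    (1 / (u - (k + 1)) - 1 / (u + (k + 1))))

/-- the sum over the nodes on the other side -/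
noncomputable def Sp (m : ℕ) (u : ℝ) : ℝ := ∑ k ∈ Finset.range m, 1 / (u + (k + 1)) ^ 2

lemma Sp_ge {u : ℝ} (hu : 0 < u) (m : ℕ) :
    1 / u - 1 / (2 * u ^ 2) - (1 / (u + m) - 1 / (2 * (u + m) ^ 2)) ≤ Sp m u := by
  induction m with
  | zero => simp [Sp]
  | succ m ih =>
    have e : Sp (m + 1) u = Sp m u + 1 / (u + (m + 1)) ^ 2 := by
      unfold Sp
      rw [Finset.sum_range_succ]
    rw [e]
    push_cast
    have hz : 0 < u + m := by positivity
    obtain ⟨z, hz'⟩ : ∃ z, z = u + m := ⟨_, rfl⟩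
    have e1 : u + ((m : ℝ) + 1) = z + 1 := by rw [hz']; ring
    rw [e1]
    rw [← hz'] at ih hz
    have key : (1 / z - 1 / (2 * z ^ 2)) - (1 / (z + 1) - 1 / (2 * (z + 1) ^ 2)) ≤
        1 / (z + 1) ^ 2 := by
      have e2 : 1 / (z + 1) ^ 2 - ((1 / z - 1 / (2 * z ^ 2)) - (1 / (z + 1) - 1 / (2 * (z + 1) ^ 2))) =
          1 / (2 * z ^ 2 * (z + 1) ^ 2) := by
        field_simp
        ring
      have : 0 < 1 / (2 * z ^ 2 * (z + 1) ^ 2) := by positivity
      linarith
    linarith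

lemma Sp_ge' {u : ℝ} (hu : 0 < u) (m : ℕ) :
    1 / u - 1 / (2 * u ^ 2) - 1 / (u + (m + 1 / 2)) ≤ Sp m u := by
  refine le_trans ?_ (Sp_ge hu m)
  have hz : 0 < u + m := by positivity
  obtain ⟨z, hz'⟩ : ∃ z, z = u + m := ⟨_, rfl⟩
  have e1 : u + ((m : ℝ) + 1 / 2) = z + 1 / 2 := by rw [hz']; ring
  rw [e1, ← hz']
  rw [← hz'] at hz
  have key : 1 / z - 1 / (2 * z ^ 2) ≤ 1 / (z + 1 / 2) := by
    have e2 : 1 / (z + 1 / 2) - (1 / z - 1 / (2 * z ^ 2)) = 1 / (4 * z ^ 2 * (z + 1 / 2)) := by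
      field_simp
      ring
    have : 0 < 1 / (4 * z ^ 2 * (z + 1 / 2)) := by positivity
    linarith
  linarith

/-- inside the tent -/
lemma inside {u : ℝ} {m : ℕ} (hu0 : 0 < u) (hu : u < m + 1 / 2) (hn : ∀ k : ℕ, u ≠ k) :
    (m + 1 / 2 - u) * (Am m u + (1 / (m + 1 / 2 - u) + 1 / (m + 1 / 2 + u))) ≤
      Rm (m + 1 / 2) m u := by
  set x : ℝ := m + 1 / 2 with hx
  have hxu : 0 < x - u := by linarith
  have hxu' : 0 < x + u := by positivity
  have e : Rm x m u - (x - u) * Am m u = 1 / u + 2 * u * Sp m u := by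
    unfold Rm Am Sp
    rw [mul_add, Finset.mul_sum, Finset.mul_sum, add_sub_add_comm, ← Finset.sum_sub_distrib]
    congr 1
    · field_simp
      ring
    · apply Finset.sum_congr rfl
      intro k _
      have h1 : u - (k + 1) ≠ 0 := by
        have := hn (k + 1)
        push_cast at this
        exact sub_ne_zero.2 this
      have h2 : u + (k + 1) ≠ 0 := by positivity
      obtain ⟨a, ha⟩ : ∃ a, a = u - (k + 1) := ⟨_, rfl⟩
      obtain ⟨b, hb⟩ : ∃ b, b = u + (k + 1) := ⟨_, rfl⟩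
      rw [← ha] at h1 ⊢
      rw [← hb] at h2 ⊢
      have e3 : x - (k + 1) = x - u + a := by rw [ha]; ring
      have e4 : a = 2 * u - b := by rw [ha, hb]; ring
      have e5 : (x - (k + 1)) * (1 / a ^ 2 + 1 / b ^ 2) - (1 / a - 1 / b) -
          (x - u) * (1 / a ^ 2 + 1 / b ^ 2) = a * (1 / a ^ 2 + 1 / b ^ 2) - (1 / a - 1 / b) := by
        rw [e3]; ring
      rw [e5]
      have e6 : a * (1 / a ^ 2 + 1 / b ^ 2) - (1 / a - 1 / b) = (a + b) / b ^ 2 := by
        field_simp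
        ring
      rw [e6, e4]
      field_simp
      ring
  have h3 := Sp_ge' hu0 m
  rw [← hx] at h3
  have h4 : (x - u) * (1 / (x - u) + 1 / (x + u)) = 2 * x / (x + u) := by
    field_simp
    ring
  have h5 : (x - u) * (Am m u + (1 / (x - u) + 1 / (x + u))) = (x - u) * Am m u + 2 * x / (x + u) := by
    rw [mul_add, h4]
  rw [h5]
  have h6 : 2 * u * (1 / u - 1 / (2 * u ^ 2) - 1 / (u + x)) ≤ 2 * u * Sp m u :=
    mul_le_mul_of_nonneg_left h3 (by positivity)
  have h7 : 1 / u + 2 * u * (1 / u - 1 / (2 * u ^ 2) - 1 / (u + x)) = 2 * x / (x + u) := by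
    rw [add_comm u x]
    field_simp
    ring
  linarith

lemma Am_out {u : ℝ} (m : ℕ) (hu : (m : ℝ) + 1 / 2 < u) :
    1 / u ^ 2 + ∑ k ∈ Finset.range m, 1 / (u - (k + 1)) ^ 2 ≤
      1 / (u - (m + 1 / 2)) - 1 / (u + 1 / 2) := by
  induction m with
  | zero =>
    simp only [Nat.cast_zero, zero_add] at hu
    have := step_up hu
    simpa using this
  | succ m ih =>
    push_cast at hu
    have h1 := ih (by linarith)
    have h2 := step_up (z := u - (m + 1)) (by linarith)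
    rw [Finset.sum_range_succ]
    push_cast
    have e1 : u - ((m : ℝ) + 1) - 1 / 2 = u - (m + 1 + 1 / 2) := by ring
    have e2 : u - ((m : ℝ) + 1) + 1 / 2 = u - (m + 1 / 2) := by ring
    rw [e1, e2] at h2
    linarith

/-- outside the tent -/
lemma outside {u : ℝ} {m : ℕ} (hu : (m : ℝ) + 1 / 2 < u) : 0 ≤ Rm (m + 1 / 2) m u := by
  set x : ℝ := m + 1 / 2 with hx
  have hx0 : 1 / 2 ≤ x := by
    have : (0 : ℝ) ≤ m := Nat.cast_nonneg m
    linarith
  have hu0 : 0 < u := by linarith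
  have hux : 0 < u - x := by linarith
  have e : Rm x m u = 1 / u + (x + u) * Sp m u - (u - x) * (1 / u ^ 2 +
      ∑ k ∈ Finset.range m, 1 / (u - (k + 1)) ^ 2) := by
    have e0 : Rm x m u - ((x + u) * Sp m u - (u - x) *
      ∑ k ∈ Finset.range m, 1 / (u - (k + 1)) ^ 2) = x / u ^ 2 := by
      unfold Rm Sp
      rw [Finset.mul_sum, Finset.mul_sum, ← Finset.sum_sub_distrib, add_sub_assoc,
        ← Finset.sum_sub_distrib]
      have : ∑ k ∈ Finset.range m, ((x - (k + 1)) * (1 / (u - (k + 1)) ^ 2 + 1 / (u + (k + 1)) ^ 2) -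
          (1 / (u - (k + 1)) - 1 / (u + (k + 1))) - ((x + u) * (1 / (u + (k + 1)) ^ 2) -
          (u - x) * (1 / (u - (k + 1)) ^ 2))) = 0 := by
        apply Finset.sum_eq_zero
        intro k hk
        have hkm : (k : ℝ) + 1 ≤ m := by
          rw [Finset.mem_range] at hk
          exact_mod_cast hk
        have h1 : u - (k + 1) ≠ 0 := by
          have : 0 < u - (k + 1) := by linarith
          exact this.ne'
        have h2 : u + (k + 1) ≠ 0 := by positivity
        obtain ⟨a, ha⟩ : ∃ a, a = u - (k + 1) := ⟨_, rfl⟩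
        obtain ⟨b, hb⟩ : ∃ b, b = u + (k + 1) := ⟨_, rfl⟩
        rw [← ha] at h1 ⊢
        rw [← hb] at h2 ⊢
        have e3 : x - (k + 1) = x + u - b := by rw [hb]; ring
        have e6 : x - (k + 1) = a - (u - x) := by rw [ha]; ring
        have e7 : (x - (k + 1)) * (1 / a ^ 2 + 1 / b ^ 2) - (1 / a - 1 / b) -
            ((x + u) * (1 / b ^ 2) - (u - x) * (1 / a ^ 2)) =
            (x - (k + 1)) * (1 / a ^ 2) + (x - (k + 1)) * (1 / b ^ 2) - (1 / a - 1 / b) -
            ((x + u) * (1 / b ^ 2) - (u - x) * (1 / a ^ 2)) := by ring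
        rw [e7]
        nth_rewrite 1 [e6]
        rw [e3]
        field_simp
        ring
      rw [this, add_zero]
    have e8 : 1 / u - (u - x) * (1 / u ^ 2) = x / u ^ 2 := by
      field_simp
      ring
    linarith
  rw [e]
  have h3 := Sp_ge' hu0 m
  have h4 := Am_out m hu
  rw [← hx] at h3 h4
  have h5 : (x + u) * (1 / u - 1 / (2 * u ^ 2) - 1 / (u + x)) ≤ (x + u) * Sp m u :=
    mul_le_mul_of_nonneg_left h3 (by positivity)
  have h6 : (u - x) * (1 / u ^ 2 + ∑ k ∈ Finset.range m, 1 / (u - (k + 1)) ^ 2) ≤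
      (u - x) * (1 / (u - x) - 1 / (u + 1 / 2)) := mul_le_mul_of_nonneg_left h4 hux.le
  have h7 : 1 / u + (x + u) * (1 / u - 1 / (2 * u ^ 2) - 1 / (u + x)) -
      (u - x) * (1 / (u - x) - 1 / (u + 1 / 2)) = (u - x) / (4 * u ^ 2 * (u + 1 / 2)) := by
    have : u + x ≠ 0 := by positivity
    rw [add_comm x u]
    field_simp
    ring
  have h8 : 0 < (u - x) / (4 * u ^ 2 * (u + 1 / 2)) := by positivity
  linarith

end Pool.Agent.H707.SM
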