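import Mathlib

/-! `∑ 1 / (u - n)² = π² / sin² (π u)` and an upper bound by a partial sum. -/

open MeasureTheory Set Filter Topology

namespace Pool.Agent.H707.SM

lemma coeff_norm (u : ℝ) (n : ℤ) (hu : u - n ≠ 0) :
    ‖fourierCoeffOn (zero_lt_one' ℝ) (fun t : ℝ => Complex.exp (2 * Real.pi * Complex.I * u * t)) n‖ ^ 2
      = Real.sin (Real.pi * u) ^ 2 / Real.pi ^ 2 * (1 / (u - n) ^ 2) := by
  rw [fourierCoeffOn_eq_integral]
  have hpi := Real.pi_pos
  have hc : (2 * Real.pi * Complex.I * (u - n) : ℂ) ≠ 0 := by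
    have : ((u : ℂ) - n) ≠ 0 := by exact_mod_cast hu
    simp [this, hpi.ne']
  have e : ∀ x : ℝ, fourier (-n) (x : AddCircle ((1 : ℝ) - 0)) •
      Complex.exp (2 * Real.pi * Complex.I * u * x) =
      Complex.exp ((2 * Real.pi * Complex.I * (u - n)) * x) := by
    intro x
    rw [fourier_coe_apply, smul_eq_mul, ← Complex.exp_add]
    congr 1
    push_cast
    ring
  simp_rw [e]
  rw [integral_exp_mul_complex hc]
  simp only [sub_zero, div_one, one_smul, Complex.ofReal_one, mul_one, Complex.ofReal_zero, mul_zero,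
    Complex.exp_zero]
  have e2 : Complex.exp (2 * Real.pi * Complex.I * (u - n)) =
      Complex.exp (((2 * (Real.pi * u) : ℝ) : ℂ) * Complex.I) := by
    rw [Complex.exp_eq_exp_iff_exists_int]
    refine ⟨-n, ?_⟩
    push_cast
    ring
  rw [e2, norm_div, div_pow]
  have e3 : ‖Complex.exp (((2 * (Real.pi * u) : ℝ) : ℂ) * Complex.I) - 1‖ ^ 2 =
      4 * Real.sin (Real.pi * u) ^ 2 := by
    rw [Complex.exp_mul_I, ← Complex.ofReal_cos, ← Complex.ofReal_sin, ← Complex.normSq_eq_norm_sq,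
      Complex.normSq_apply]
    simp only [Complex.sub_re, Complex.add_re, Complex.ofReal_re, Complex.mul_re, Complex.I_re,
      mul_zero, Complex.ofReal_im, Complex.I_im, mul_one, sub_self, add_zero, Complex.one_re,
      Complex.sub_im, Complex.add_im, Complex.mul_im, zero_add, Complex.one_im, sub_zero]
    rw [Real.cos_two_mul, Real.sin_two_mul]
    have := Real.sin_sq_add_cos_sq (Real.pi * u)
    have h2 : Real.cos (Real.pi * u) ^ 2 = 1 - Real.sin (Real.pi * u) ^ 2 := by linarith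
    nlinarith [this, h2]
  have e4 : ‖(2 * Real.pi * Complex.I * (u - n) : ℂ)‖ ^ 2 = 4 * Real.pi ^ 2 * (u - n) ^ 2 := by
    rw [norm_mul, norm_mul, norm_mul, Complex.norm_I]
    have : ((u : ℂ) - n) = ((u - n : ℝ) : ℂ) := by push_cast; ring
    rw [this, Complex.norm_real, Complex.norm_real, Real.norm_eq_abs, Real.norm_eq_abs]
    rw [mul_pow, mul_pow, mul_pow, sq_abs, sq_abs]
    norm_num
  rw [e3, e4]
  field_simp

lemma par {u : ℝ} (hu : Real.sin (Real.pi * u) ≠ 0) :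
    HasSum (fun n : ℤ => 1 / (u - n) ^ 2) (Real.pi ^ 2 / Real.sin (Real.pi * u) ^ 2) := by
  have hpi := Real.pi_pos
  have hun : ∀ n : ℤ, u - n ≠ 0 := by
    intro n h
    apply hu
    have : u = n := by linarith
    rw [this, mul_comm]
    exact Real.sin_int_mul_pi n
  have hc : Continuous fun t : ℝ => Complex.exp (2 * Real.pi * Complex.I * u * t) := by fun_prop
  have e1 : ∀ x : ℝ, ‖Complex.exp (2 * Real.pi * Complex.I * u * x)‖ = 1 := by
    intro x
    have : (2 * Real.pi * Complex.I * u * x : ℂ) = ((2 * Real.pi * u * x : ℝ) : ℂ) * Complex.I := by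
      push_cast; ring
    rw [this, Complex.norm_exp_ofReal_mul_I]
  have hL2 : MemLp (fun t : ℝ => Complex.exp (2 * Real.pi * Complex.I * u * t)) 2
      (volume.restrict (Ioc (0 : ℝ) 1)) :=
    MemLp.of_bound hc.aestronglyMeasurable 1 (Eventually.of_forall fun x => (e1 x).le)
  have h := hasSum_sq_fourierCoeffOn (zero_lt_one' ℝ) hL2
  simp_rw [coeff_norm u _ (hun _)] at h
  simp_rw [e1] at h
  rw [one_pow] at h
  simp only [sub_zero, inv_one, intervalIntegral.integral_const, smul_eq_mul, mul_one] at h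
  have h2 := h.mul_left (Real.pi ^ 2 / Real.sin (Real.pi * u) ^ 2)
  rw [mul_one] at h2
  have e2 : (fun n : ℤ => 1 / (u - n) ^ 2) = fun n : ℤ => Real.pi ^ 2 / Real.sin (Real.pi * u) ^ 2 *
      (Real.sin (Real.pi * u) ^ 2 / Real.pi ^ 2 * (1 / (u - n) ^ 2)) := by
    funext n
    have := hun n
    obtain ⟨s, hs⟩ : ∃ s, s = Real.sin (Real.pi * u) := ⟨_, rfl⟩
    rw [← hs] at hu ⊢
    field_simp
  rw [e2]
  exact h2

/-- partial sum -/
noncomputable def Am (m : ℕ) (u : ℝ) : ℝ :=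
  1 / u ^ 2 + ∑ k ∈ Finset.range m, (1 / (u - (k + 1)) ^ 2 + 1 / (u + (k + 1)) ^ 2)

lemma step_up {z : ℝ} (hz : 1 / 2 < z) : 1 / z ^ 2 ≤ 1 / (z - 1 / 2) - 1 / (z + 1 / 2) := by
  have h1 : 0 < z - 1 / 2 := by linarith
  have h2 : 0 < z + 1 / 2 := by linarith
  have h3 : 0 < z := by linarith
  rw [div_sub_div _ _ h1.ne' h2.ne', div_le_div_iff₀ (by positivity) (by positivity)]
  nlinarith

lemma Am_anti {u : ℝ} {m : ℕ} (hu0 : 0 < u) (hu : u < m + 1 / 2) (N : ℕ) (hN : m ≤ N) :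
    Am N u + (1 / (N + 1 / 2 - u) + 1 / (N + 1 / 2 + u)) ≤
      Am m u + (1 / (m + 1 / 2 - u) + 1 / (m + 1 / 2 + u)) := by
  induction N, hN using Nat.le_induction with
  | base => exact le_rfl
  | succ N hN ih =>
    refine le_trans ?_ ih
    have hNr : (m : ℝ) ≤ N := by exact_mod_cast hN
    have a1 := step_up (z := (N : ℝ) + 1 - u) (by linarith)
    have a2 := step_up (z := (N : ℝ) + 1 + u) (by linarith)
    have e : Am (N + 1) u = Am N u + (1 / (u - (N + 1)) ^ 2 + 1 / (u + (N + 1)) ^ 2) := by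
      unfold Am
      rw [Finset.sum_range_succ]
      ring
    rw [e]
    push_cast
    have e1 : (u - ((N : ℝ) + 1)) ^ 2 = ((N : ℝ) + 1 - u) ^ 2 := by ring
    have e2 : (u + ((N : ℝ) + 1)) ^ 2 = ((N : ℝ) + 1 + u) ^ 2 := by ring
    rw [e1, e2]
    have e3 : (N : ℝ) + 1 - u - 1 / 2 = N + 1 / 2 - u := by ring
    have e4 : (N : ℝ) + 1 - u + 1 / 2 = N + 1 + 1 / 2 - u := by ring
    have e5 : (N : ℝ) + 1 + u - 1 / 2 = N + 1 / 2 + u := by ring
    have e6 : (N : ℝ) + 1 + u + 1 / 2 = N + 1 + 1 / 2 + u := by ring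
    rw [e3, e4] at a1
    rw [e5, e6] at a2
    linarith

theorem sin_bound {u : ℝ} {m : ℕ} (hu0 : 0 < u) (hu : u < m + 1 / 2)
    (hs : Real.sin (Real.pi * u) ≠ 0) :
    Real.pi ^ 2 / Real.sin (Real.pi * u) ^ 2 ≤
      Am m u + (1 / (m + 1 / 2 - u) + 1 / (m + 1 / 2 + u)) := by
  have h := (par hs).nat_add_neg
  have h1 := h.tendsto_sum_nat
  have h2 : Tendsto (fun N : ℕ => ∑ n ∈ Finset.range (N + 1), (1 / (u - ((n : ℤ) : ℝ)) ^ 2 +
      1 / (u - ((-(n : ℤ) : ℤ) : ℝ)) ^ 2)) atTop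
      (𝓝 (Real.pi ^ 2 / Real.sin (Real.pi * u) ^ 2 + 1 / (u - ((0 : ℤ) : ℝ)) ^ 2)) :=
    h1.comp (tendsto_add_atTop_nat 1)
  have h3 : Real.pi ^ 2 / Real.sin (Real.pi * u) ^ 2 + 1 / (u - ((0 : ℤ) : ℝ)) ^ 2 ≤
      Am m u + (1 / (m + 1 / 2 - u) + 1 / (m + 1 / 2 + u)) + 1 / u ^ 2 := by
    refine le_of_tendsto h2 ?_
    filter_upwards [eventually_ge_atTop m] with N hN
    have a := Am_anti hu0 hu N hN
    have hNr : (m : ℝ) ≤ N := by exact_mod_cast hN
    have e : ∑ n ∈ Finset.range (N + 1), (1 / (u - ((n : ℤ) : ℝ)) ^ 2 +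
        1 / (u - ((-(n : ℤ) : ℤ) : ℝ)) ^ 2) = Am N u + 1 / u ^ 2 := by
      rw [Finset.sum_range_succ']
      unfold Am
      push_cast
      simp only [sub_neg_eq_add, sub_zero, neg_zero]
      ring
    rw [e]
    have b1 : 0 ≤ 1 / ((N : ℝ) + 1 / 2 - u) := by
      apply one_div_nonneg.2; linarith
    have b2 : 0 ≤ 1 / ((N : ℝ) + 1 / 2 + u) := by
      apply one_div_nonneg.2; linarith
    linarith
  simp only [Int.cast_zero, sub_zero] at h3
  linarith

end Pool.Agent.H707.SM
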